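import Pool.Agent.Lib.MP_5e7226_co.L7.Pol

/-!
# The statement for `d = 3`, from the illumination theorem with equality case
-/

set_option autoImplicit false

open Set Filter Topology
open scoped InnerProductSpace

namespace Pool.Agent.Lib.MP_5e7226_co.L7

open GB WL

theorem Illum.mono {W : Type*} [AddCommGroup W] [Module ℝ W] [TopologicalSpace W] {L : Set W}
    {N M : ℕ} (h : Illum L N) (hNM : N ≤ M) : Illum L M := by
  obtain ⟨d, hd⟩ := h
  refine ⟨fun i => if hi : i.1 < N then d ⟨i.1, hi⟩ else 0, fun y hy => ?_⟩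
  obtain ⟨i, t, ht, hi⟩ := hd y hy
  refine ⟨⟨i.1, lt_of_lt_of_le i.2 hNM⟩, t, ht, ?_⟩
  simpa using hi

/-- the cube is illuminated by eight directions -/
theorem illum_cube : Illum {y : E | ∀ i, |y i| ≤ 1} 8 := by
  refine ⟨fun v => -(sg v), fun y hy => ?_⟩
  obtain ⟨v, hv⟩ := exists_oct y
  refine ⟨v, 1/2, by norm_num, ?_⟩
  have hopen : IsOpen {z : E | ∀ i, |z i| < 1} := by
    have h1 : {z : E | ∀ i, |z i| < 1} = ⋂ i, {z : E | |z i| < 1} := by ext z; simp
    rw [h1]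
    exact isOpen_iInter_of_finite fun i =>
      isOpen_lt (continuous_abs.comp (continuous_apply i)) continuous_const
  refine interior_maximal (fun z hz i => (hz i).le) hopen ?_
  intro i
  have h1 := hv i
  have h2 : |sg v i * y i| ≤ 1 := by
    have h3 : |sg v i| = 1 := abs_sb _
    rw [abs_mul, h3, one_mul]
    exact hy i
  have h4 : |(y + (1/2 : ℝ) • -(sg v)) i| = |sg v i * y i - 1/2| := by
    have h5 : (y + (1/2 : ℝ) • -(sg v)) i = sg v i * (sg v i * y i - 1/2) := by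
      have h6 : sg v i * sg v i = 1 := sb_sq _
      simp only [Pi.add_apply, Pi.smul_apply, Pi.neg_apply, smul_eq_mul]
      linear_combination (-(y i)) * h6
    have h3 : |sg v i| = 1 := abs_sb _
    rw [h5, abs_mul, h3, one_mul]
  rw [h4, abs_lt]
  rw [abs_le] at h2
  constructor <;> linarith [h2.1, h2.2]

/-- parallelepipeds are illuminated by eight directions -/
theorem IsPar.illum {L : Set E} (h : IsPar L) : Illum L 8 := by
  obtain ⟨c, e, he, rfl⟩ := h
  let b : Module.Basis (Fin 3) ℝ E :=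
    basisOfLinearIndependentOfCardEqFinrank he (by simp)
  have hb : ∀ i, b i = e i := by
    intro i
    simp [b]
  let T : E ≃L[ℝ] E := (b.equivFun.symm).toContinuousLinearEquiv
  have hT : ∀ t : E, T t = ∑ i, t i • e i := by
    intro t
    have h1 : T t = b.equivFun.symm t := rfl
    rw [h1, Module.Basis.equivFun_symm_apply]
    exact Finset.sum_congr rfl fun i _ => by rw [hb]
  refine illum_affine T c illum_cube ?_
  ext y
  constructor
  · rintro ⟨t, ht, rfl⟩
    exact ⟨t, ht, by show c + T t = _; rw [hT]⟩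
  · rintro ⟨t, ht, rfl⟩
    exact ⟨t, ht, by show c + T t = _; rw [hT]⟩

/-- Q1 for `d = 3`, from the illumination theorem with equality case -/
theorem q1_dim3
    (H : ∀ S : Set E, Convex ℝ S → IsCompact S → (interior S).Nonempty → Illum S 7 ∨ IsPar S)
    (K : Set (EuclideanSpace ℝ (Fin 3))) (hconv : Convex ℝ K) (hK : IsCompact K)
    (o : EuclideanSpace ℝ (Fin 3)) (ho : o ∈ interior K) :
    (∃ w : Fin (2 ^ 3) → EuclideanSpace ℝ (Fin 3), ∃ b : Fin (2 ^ 3) → ℝ,
      ∀ u x₀ : EuclideanSpace ℝ (Fin 3), u ≠ 0 → x₀ ∈ K →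
        (∀ y ∈ K, ⟪u, y⟫_ℝ ≤ ⟪u, x₀⟫_ℝ) →
          ∃ i, ⟪w i, o⟫_ℝ < b i ∧
            ∀ x ∈ K, ⟪u, x⟫_ℝ = ⟪u, x₀⟫_ℝ → b i < ⟪w i, x⟫_ℝ) ∧
    ((¬ ∃ w : Fin (2 ^ 3 - 1) → EuclideanSpace ℝ (Fin 3), ∃ b : Fin (2 ^ 3 - 1) → ℝ,
      ∀ u x₀ : EuclideanSpace ℝ (Fin 3), u ≠ 0 → x₀ ∈ K →
        (∀ y ∈ K, ⟪u, y⟫_ℝ ≤ ⟪u, x₀⟫_ℝ) →
          ∃ i, ⟪w i, o⟫_ℝ < b i ∧
            ∀ x ∈ K, ⟪u, x⟫_ℝ = ⟪u, x₀⟫_ℝ → b i < ⟪w i, x⟫_ℝ) →
      ∃ v : Fin 3 → EuclideanSpace ℝ (Fin 3), ∃ t : Fin 3 → ℝ,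
        LinearIndependent ℝ v ∧ (∀ i, 0 < t i) ∧
          K = convexHull ℝ (⋃ i, ({o + v i, o - t i • v i} : Set (EuclideanSpace ℝ (Fin 3))))) := by
  constructor
  · have hdim : Module.finrank ℝ (EuclideanSpace ℝ (Fin 3)) = 3 := by simp
    have hdual : Module.finrank ℝ (EuclideanSpace ℝ (Fin 3) →L[ℝ] ℝ) = 3 := by
      have h1 := (LinearMap.toContinuousLinearMap (𝕜 := ℝ) (E := EuclideanSpace ℝ (Fin 3))
        (F' := ℝ)).symm.finrank_eq
      have h2 := Subspace.dual_finrank_eq (K := ℝ) (V := EuclideanSpace ℝ (Fin 3))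
      exact h1.trans (h2.trans hdim)
    have hKc : IsCompact ((fun x => x - o) '' K) := hK.image (continuous_id.sub continuous_const)
    have h0 : (0 : EuclideanSpace ℝ (Fin 3)) ∈ interior ((fun x => x - o) '' K) :=
      (Homeomorph.subRight o).isOpenMap.image_interior_subset K ⟨o, ho, by simp⟩
    refine sep_to_hyperplanes hK o (Sep.of_illum_polar hKc h0 ?_)
    let T : (EuclideanSpace ℝ (Fin 3) →L[ℝ] ℝ) ≃L[ℝ] E :=
      ContinuousLinearEquiv.ofFinrankEq (by rw [hdual]; simp)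
    apply Illum.of_image T
    have h1 := H (T '' polarBody ((fun x => x - o) '' K))
      ((polarBody_convex _).linear_image T.toLinearEquiv.toLinearMap)
      ((Metric.isCompact_of_isClosed_isBounded (polarBody_closed _)
        (polarBody_bounded h0)).image T.continuous)
      ⟨_, T.toHomeomorph.isOpenMap.image_interior_subset _
        ⟨0, polarBody_zero_mem_interior hKc, rfl⟩⟩
    rcases h1 with h1 | h1
    · exact Illum.mono h1 (by norm_num)
    · exact h1.illum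
  · intro hno
    rcases sep_or_cross H K hconv hK o ho with h | h
    · exact absurd h hno
    · exact h

end Pool.Agent.Lib.MP_5e7226_co.L7
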