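import Pool.Agent.Lib.MP_5e7226_co.L7.Defs

/-!
# Normals at points which are not served

`exists_nrm`: if `x ∈ L` and `w` does not serve `x` then there is a normalised inner normal `m` at
`x` with `m · w ≤ 0`.

Proof. `interior L` is open, convex, nonempty (it contains `0`, because `L` contains the cube),
and disjoint from the ray `R = {x + t w : t ≥ 0}`: for `t > 0` this is the hypothesis; and if
`x ∈ interior L` then `x + t w ∈ interior L` for small `t > 0` (openness), contradiction. By
`geometric_hahn_banach_open` there are `f`, `u` with `f a < u` on `interior L` and `u ≤ f b` on `R`.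
`L ⊆ closure (interior L)` (`Convex.closure_interior_eq_closure_of_nonempty_interior`), so `f ≤ u`
on `L`; in particular `f x ≤ u ≤ f x`, so `f x = u` and `f (x + t w) ≥ f x` gives `f w ≥ 0`. Put
`m₀ i = - f (Pi.single i 1)`, so `dt m₀ y = - f y`; `m₀ ≠ 0` because `f 0 < u ≤ f x`; divide by
`∑ |m₀ i|`.

`nrm_ineq`: test the normal with the vertex `y i = - sign (m i)` of the cube (more precisely
`y i = if 0 ≤ m i then -1 else 1`): `dt m x ≤ dt m y = - ∑ |m i| = -1`; and `∑ 13/10 |m i| = 13/10`.
Each summand is nonnegative because `|x i| ≤ 13/10`.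
-/

set_option autoImplicit false

open Set Filter Topology

namespace Pool.Agent.Lib.MP_5e7226_co.L7

open GB

theorem zero_mem_interior {L : Set E} (hS : Sand L) : (0 : E) ∈ interior L := by
  rw [mem_interior_iff_mem_nhds, Metric.mem_nhds_iff]
  refine ⟨1, one_pos, fun y hy => hS.inn y fun i => ?_⟩
  rw [Metric.mem_ball, dist_zero_right] at hy
  have h1 := norm_le_pi_norm y i
  rw [Real.norm_eq_abs] at h1
  linarith

private lemma A1_expand (f : E →L[ℝ] ℝ) (y : E) :
    dt (fun i => - f (Pi.single i 1)) y = - f y := by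
  have h1 : y = ∑ i, y i • (Pi.single i (1 : ℝ) : E) := by
    funext j
    simp [Finset.sum_apply, Pi.single_apply]
  have h2 : f y = ∑ i, y i * f (Pi.single i 1) := by
    conv_lhs => rw [h1]
    rw [map_sum]
    refine Finset.sum_congr rfl fun i _ => ?_
    rw [map_smul, smul_eq_mul]
  rw [h2]
  unfold dt
  rw [← Finset.sum_neg_distrib]
  refine Finset.sum_congr rfl fun i _ => ?_
  ring

theorem exists_nrm {L : Set E} (hS : Sand L) {x w : E} (hx : x ∈ L) (h : ¬ Serve L x w) :
    ∃ m, Nrm L x m ∧ dt m w ≤ 0 := by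
  have hint : (interior L).Nonempty := ⟨0, zero_mem_interior hS⟩
  have hR : Convex ℝ {y : E | ∃ t : ℝ, 0 ≤ t ∧ y = x + t • w} := by
    rintro y ⟨t, ht, rfl⟩ z ⟨s, hs, rfl⟩ a b ha hb hab
    refine ⟨a * t + b * s, by positivity, ?_⟩
    funext i
    simp only [Pi.add_apply, Pi.smul_apply, smul_eq_mul]
    have : x i = (a + b) * x i := by rw [hab, one_mul]
    linear_combination (-1 : ℝ) * this
  have hdisj : Disjoint (interior L) {y : E | ∃ t : ℝ, 0 ≤ t ∧ y = x + t • w} := by
    rw [Set.disjoint_left]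
    rintro y hy ⟨t, ht, rfl⟩
    rcases ht.lt_or_eq with ht | ht
    · exact h ⟨t, ht, hy⟩
    · rw [← ht, zero_smul, add_zero] at hy
      obtain ⟨ε, hε, hb⟩ := Metric.isOpen_iff.1 isOpen_interior x hy
      have hw0 : 0 ≤ ‖w‖ := norm_nonneg w
      refine h ⟨ε / (2 * (‖w‖ + 1)), by positivity, hb ?_⟩
      rw [Metric.mem_ball, dist_eq_norm, add_sub_cancel_left, norm_smul, Real.norm_eq_abs,
        abs_of_pos (by positivity), div_mul_eq_mul_div, div_lt_iff₀ (by positivity)]
      nlinarith
  obtain ⟨f, u, hf1, hf2⟩ := geometric_hahn_banach_open hS.conv.interior isOpen_interior hR hdisj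
  have hfL : ∀ y ∈ L, f y ≤ u := by
    intro y hy
    have h1 : y ∈ closure (interior L) := by
      rw [hS.conv.closure_interior_eq_closure_of_nonempty_interior hint]
      exact subset_closure hy
    have h2 : closure (interior L) ⊆ {z | f z ≤ u} :=
      closure_minimal (fun z hz => (hf1 z hz).le) (isClosed_le f.continuous continuous_const)
    exact h2 h1
  have hux : u ≤ f x := hf2 x ⟨0, le_rfl, by rw [zero_smul, add_zero]⟩
  have hfx : f x = u := le_antisymm (hfL x hx) hux
  have hfw : 0 ≤ f w := by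
    have h1 := hf2 (x + (1 : ℝ) • w) ⟨1, zero_le_one, rfl⟩
    rw [map_add, one_smul] at h1
    linarith
  have hu0 : 0 < u := by
    have h1 := hf1 0 (zero_mem_interior hS)
    rwa [map_zero] at h1
  obtain ⟨m₀, hm₀⟩ : ∃ m₀ : E, ∀ y, dt m₀ y = - f y := ⟨_, A1_expand f⟩
  obtain ⟨S, hS'⟩ : ∃ S : ℝ, S = ∑ i, |m₀ i| := ⟨_, rfl⟩
  have hSpos : 0 < S := by
    have h1 : 0 ≤ S := by
      rw [hS']
      exact Finset.sum_nonneg fun i _ => abs_nonneg _
    rcases h1.lt_or_eq with h1 | h1
    · exact h1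
    · exfalso
      rw [hS'] at h1
      have h2 : ∀ i ∈ Finset.univ, |m₀ i| = 0 :=
        (Finset.sum_eq_zero_iff_of_nonneg fun i _ => abs_nonneg _).1 h1.symm
      have h3 : dt m₀ x = 0 := by
        unfold dt
        refine Finset.sum_eq_zero fun i hi => ?_
        rw [abs_eq_zero.1 (h2 i hi), zero_mul]
      rw [hm₀, hfx] at h3
      linarith
  have hdt : ∀ y, dt (fun i => m₀ i / S) y = - f y / S := by
    intro y
    rw [← hm₀]
    unfold dt
    rw [Finset.sum_div]
    refine Finset.sum_congr rfl fun i _ => ?_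
    ring
  refine ⟨fun i => m₀ i / S, ⟨?_, fun y hy => ?_⟩, ?_⟩
  · have h1 : ∑ i, |m₀ i / S| = (∑ i, |m₀ i|) / S := by
      rw [Finset.sum_div]
      refine Finset.sum_congr rfl fun i _ => ?_
      rw [abs_div, abs_of_pos hSpos]
    rw [h1, ← hS', div_self hSpos.ne']
  · rw [hdt, hdt]
    have h1 := hfL y hy
    exact div_le_div_of_nonneg_right (by linarith) hSpos.le
  · rw [hdt]
    exact div_nonpos_of_nonpos_of_nonneg (by linarith) hSpos.le

theorem nrm_ineq {L : Set E} (hS : Sand L) {x m : E} (hx : x ∈ L) (hm : Nrm L x m) :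
    (∀ i, 0 ≤ 13/10 * |m i| + m i * x i) ∧ ∑ i, (13/10 * |m i| + m i * x i) ≤ 3/10 := by
  obtain ⟨h1, h2⟩ := hm
  constructor
  · intro i
    have h3 := hS.out x hx i
    have h4 : |m i * x i| ≤ 13 / 10 * |m i| := by
      rw [abs_mul, mul_comm]
      exact mul_le_mul_of_nonneg_right h3 (abs_nonneg _)
    have h5 := neg_abs_le (m i * x i)
    linarith
  · have h3 := h2 (fun i => if 0 ≤ m i then (-1 : ℝ) else 1) (hS.inn _ fun i => by
      split_ifs <;> norm_num)
    have h4 : dt m (fun i => if 0 ≤ m i then (-1 : ℝ) else 1) = - ∑ i, |m i| := by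
      unfold dt
      rw [← Finset.sum_neg_distrib]
      refine Finset.sum_congr rfl fun i _ => ?_
      show m i * (if 0 ≤ m i then (-1 : ℝ) else 1) = - |m i|
      split_ifs with h5
      · rw [abs_of_nonneg h5]; ring
      · rw [abs_of_neg (not_le.1 h5)]; ring
    rw [h4, h1] at h3
    have h5 : ∑ i, (13/10 * |m i| + m i * x i) = 13/10 * ∑ i, |m i| + dt m x := by
      unfold dt
      rw [Finset.sum_add_distrib, Finset.mul_sum]
    rw [h5, h1]
    linarith

/-- passage to the reduced inequalities (uses `nrm_ineq`, `|sg v i| = 1`, `sg v i * sg v i = 1`) -/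
theorem cor_of_nrm {L : Set E} (hS : Sand L) {x m : E} (hx : x ∈ L) (hm : Nrm L x m) (v : Fin 8)
    (hv : ∀ i, 0 ≤ sg v i * x i) :
    Cor (fun i => - sg v i * m i) (fun i => sg v i * x i) := by
  have hsq : ∀ i, sg v i * sg v i = 1 := fun i => sb_sq _
  have habs : ∀ i, |sg v i| = 1 := fun i => abs_sb _
  obtain ⟨_, h2⟩ := nrm_ineq hS hx hm
  have h3 : ∀ i, |(- sg v i * m i)| = |m i| := by
    intro i
    rw [abs_mul, abs_neg, habs, one_mul]
  refine ⟨?_, hv, ?_, ?_⟩
  · rw [← hm.1]
    exact Finset.sum_congr rfl fun i _ => h3 i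
  · intro i
    have h4 := hS.out x hx i
    have h5 : sg v i * x i ≤ |sg v i * x i| := le_abs_self _
    rw [abs_mul, habs, one_mul] at h5
    exact h5.trans h4
  · refine le_trans (le_of_eq ?_) h2
    refine Finset.sum_congr rfl fun i _ => ?_
    rw [h3]
    linear_combination (m i * x i) * hsq i

end Pool.Agent.Lib.MP_5e7226_co.L7
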