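import Pool.Agent.Lib.MP_5e7226_co.L7.Final

/-!
# The local theorem for an arbitrary parallelepiped

`C ⊆ L ⊆ c + (13/10) (C - c)` for a parallelepiped `C` with centre `c`.
-/

set_option autoImplicit false

open Set Filter Topology

namespace Pool.Agent.Lib.MP_5e7226_co.L7

open GB

/-- `L` is a parallelepiped -/
def IsParW {W : Type*} [AddCommGroup W] [Module ℝ W] (L : Set W) : Prop :=
  ∃ (c : W) (e : Fin 3 → W), LinearIndependent ℝ e ∧
    L = {y | ∃ t : Fin 3 → ℝ, (∀ i, |t i| ≤ 1) ∧ y = c + ∑ i, t i • e i}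

/-- image under an affine isomorphism -/
theorem IsParW.image {W W' : Type*} [AddCommGroup W] [Module ℝ W] [AddCommGroup W'] [Module ℝ W']
    {L : Set W} (h : IsParW L) (T : W ≃ₗ[ℝ] W') (c₀ : W') :
    IsParW ((fun y => c₀ + T y) '' L) := by
  obtain ⟨c, e, he, rfl⟩ := h
  refine ⟨c₀ + T c, fun i => T (e i), he.map' T.toLinearMap T.ker, ?_⟩
  ext z
  constructor
  · rintro ⟨y, ⟨t, ht, rfl⟩, rfl⟩
    refine ⟨t, ht, ?_⟩
    simp only [map_add, map_sum, map_smul]
    abel
  · rintro ⟨t, ht, rfl⟩
    refine ⟨c + ∑ i, t i • e i, ⟨t, ht, rfl⟩, ?_⟩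
    simp only [map_add, map_sum, map_smul]
    abel

/-- illumination and affine isomorphisms -/
theorem illum_affine {L L' : Set E} {N : ℕ} (T : E ≃L[ℝ] E) (c : E) (h : Illum L' N)
    (hL : L = (fun y => c + T y) '' L') : Illum L N := by
  obtain ⟨d, hd⟩ := h
  refine ⟨fun i => T (d i), ?_⟩
  rw [hL]
  rintro _ ⟨y, hy, rfl⟩
  obtain ⟨i, t, ht, hi⟩ := hd y hy
  refine ⟨i, t, ht, ?_⟩
  have hop : IsOpenMap (fun y : E => c + T y) :=
    (Homeomorph.addLeft c).isOpenMap.comp T.toHomeomorph.isOpenMap
  have h1 := hop.image_interior_subset L'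
  have h2 : c + T y + t • T (d i) = c + T (y + t • d i) := by
    rw [map_add, map_smul]; abel
  show c + T y + t • T (d i) ∈ _
  rw [h2]
  exact h1 ⟨_, hi, rfl⟩

/-- The local theorem: `L` lies between a parallelepiped and its homothetic copy with the ratio
`13/10`. -/
theorem near_par {L : Set E} (hc : Convex ℝ L) (hk : IsCompact L) (c : E) (e : Fin 3 → E)
    (he : LinearIndependent ℝ e)
    (hin : ∀ t : Fin 3 → ℝ, (∀ i, |t i| ≤ 1) → c + ∑ i, t i • e i ∈ L)
    (hout : ∀ y ∈ L, ∃ t : Fin 3 → ℝ, (∀ i, |t i| ≤ 13/10) ∧ y = c + ∑ i, t i • e i) :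
    Illum L 7 ∨ IsPar L := by
  let b : Module.Basis (Fin 3) ℝ E :=
    basisOfLinearIndependentOfCardEqFinrank he (by simp)
  have hb : ∀ i, b i = e i := by
    intro i
    simp [b]
  let T : E ≃L[ℝ] E := (b.equivFun.symm).toContinuousLinearEquiv
  have hT : ∀ t : E, T t = ∑ i, t i • e i := by
    intro t
    have h1 : T t = b.equivFun.symm t := rfl
    rw [h1, Module.Basis.equivFun_symm_apply]
    exact Finset.sum_congr rfl fun i _ => by rw [hb]
  let L' : Set E := {t | c + T t ∈ L}
  have hL : L = (fun y => c + T y) '' L' := by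
    ext y
    constructor
    · intro hy
      refine ⟨T.symm (y - c), ?_, ?_⟩
      · show c + T (T.symm (y - c)) ∈ L
        rw [T.apply_symm_apply]; simpa using hy
      · show c + T (T.symm (y - c)) = y
        rw [T.apply_symm_apply]; abel
    · rintro ⟨t, ht, rfl⟩
      exact ht
  have hS : Sand L' := by
    refine ⟨?_, ?_, ?_, ?_⟩
    · intro x hx y hy a a' ha ha' haa
      show c + T (a • x + a' • y) ∈ L
      have h1 : c + T (a • x + a' • y) = a • (c + T x) + a' • (c + T y) := by
        rw [map_add, map_smul, map_smul, smul_add, smul_add]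
        have h2 : c = a • c + a' • c := by rw [← add_smul, haa, one_smul]
        calc c + (a • T x + a' • T y) = (a • c + a' • c) + (a • T x + a' • T y) := by rw [← h2]
          _ = _ := by abel
      rw [h1]
      exact hc hx hy ha ha' haa
    · have h1 : L' = (fun y => T.symm (y - c)) '' L := by
        ext t
        constructor
        · intro ht
          exact ⟨c + T t, ht, by simp⟩
        · rintro ⟨y, hy, rfl⟩
          show c + T (T.symm (y - c)) ∈ L
          rw [T.apply_symm_apply]; simpa using hy
      rw [h1]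
      exact hk.image (T.symm.continuous.comp (continuous_id.sub continuous_const))
    · intro t ht
      show c + T t ∈ L
      rw [hT]
      exact hin t ht
    · intro t ht i
      obtain ⟨s, hs, hst⟩ := hout _ ht
      have h1 : T t = T s := by
        rw [hT s]
        have : c + T t = c + ∑ i, s i • e i := hst
        exact add_left_cancel this
      have h2 : t = s := T.injective h1
      rw [h2]
      exact hs i
  rcases local7 hS with h | h
  · exact Or.inl (illum_affine T c h hL)
  · right
    have h1 : IsParW L := by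
      rw [hL]
      exact IsParW.image h T.toLinearEquiv c
    exact h1

end Pool.Agent.Lib.MP_5e7226_co.L7
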