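import Pool.Agent.Lib.MP_5e7226_co.L7.Defs

/-!
# The core inequalities (pure real arithmetic in three variables)

All constants: `13/10`, budget `3/10`, shortening `61/200`.

For `μ i < 0` (wrong) the summand `13/10 |μ i| - μ i X i = |μ i| (13/10 + X i)`, for `μ i > 0` it is
`μ i (13/10 - X i)`; all summands are `≥ 0` and their sum is `≤ 3/10` (the budget). Hence
(1) the wrong mass `W` (sum of the wrong `|μ i|`) is at most `3/13`, and if `ξ ≤ X i` for the wrong `i`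
then `W ≤ (3/10)/(13/10 + ξ)`.

* `cor_pos`: `∑ c i μ i ≥ (61/200)(1 - W) - W ≥ (61/200)(10/13) - 3/13 > 0`.
* `cor_tilt`: `μ j > 0` (otherwise the positive mass is at most the wrong mass, total `≤ 6/13 < 1`);
  let `V` = wrong mass in the indices `i, k`, `P` = positive mass there; `1 = μ j + P + V` and
  `P - V ≤ (61/200) μ j`, so `μ j ≥ (1 - 2V)/(261/200) ≥ (7/13)(200/261) ≥ .41 > 2/5`.
  Own coordinate: `μ j (13/10 - X j) ≤ 3/10 - (13/10) V`. If `X j < 9/10` then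
  `(2/5) μ j < 3/10 - (13/10) V`, but `(2/5) μ j ≥ (80/261)(1 - 2V) > 3/10 - (13/10) V` since
  `80/261 > 3/10` and `160/261 < 13/10`: contradiction.
* `cor_tilt_b`: now `V ≤ (3/10)/(218/100)`, so `μ j ≥ (1 - 2V)(200/261) ≥ .555 > 11/20`.
Case distinctions on the signs of `μ 0, μ 1, μ 2` (`abs_of_nonneg`, `abs_of_neg`) and `nlinarith`
with the products `|μ i| * (X i - ξ)`; first reduce with `GB.sum3 hij hik hjk`.
-/

set_option autoImplicit false

open Set Filter Topology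

namespace Pool.Agent.Lib.MP_5e7226_co.L7

open GB

/-- the summand in terms of the wrong mass `(|m| - m)/2` -/
private theorem B_aux_sum {m X ξ : ℝ} (hξ : ξ ≤ X) (hX : X ≤ 13/10) :
    (13/10 + ξ) * ((|m| - m)/2) ≤ 13/10 * |m| - m * X := by
  rcases le_total 0 m with h | h
  · rw [abs_of_nonneg h]
    nlinarith [mul_nonneg h (sub_nonneg.mpr hX)]
  · rw [abs_of_nonpos h]
    nlinarith [mul_nonneg (neg_nonneg.mpr h) (sub_nonneg.mpr hξ)]

private theorem B_aux_c {m c : ℝ} (h1 : 61/200 ≤ c) (h2 : c ≤ 1) :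
    61/200 * ((|m| + m)/2) - (|m| - m)/2 ≤ c * m := by
  rcases le_total 0 m with h | h
  · rw [abs_of_nonneg h]
    nlinarith [mul_nonneg h (sub_nonneg.mpr h1)]
  · rw [abs_of_nonpos h]
    nlinarith [mul_nonneg (neg_nonneg.mpr h) (sub_nonneg.mpr h2)]

theorem cor_pos {μ X : E} (h : Cor μ X) {c : E} (hc : ∀ i, 61/200 ≤ c i ∧ c i ≤ 1) :
    0 < ∑ i, c i * μ i := by
  have h1 := h.one
  have h2 := h.sum
  rw [Fin.sum_univ_three] at h1 h2 ⊢
  have s0 := B_aux_sum (m := μ 0) (h.nn 0) (h.le 0)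
  have s1 := B_aux_sum (m := μ 1) (h.nn 1) (h.le 1)
  have s2 := B_aux_sum (m := μ 2) (h.nn 2) (h.le 2)
  have c0 := B_aux_c (m := μ 0) (hc 0).1 (hc 0).2
  have c1 := B_aux_c (m := μ 1) (hc 1).1 (hc 1).2
  have c2 := B_aux_c (m := μ 2) (hc 2).1 (hc 2).2
  linarith

/-- the common part of the two tilt lemmas: the positive coordinate `μ j` -/
private theorem B_aux_tilt {μ X : E} (h : Cor μ X) {i j k : Fin 3} (hij : i ≠ j) (hik : i ≠ k)
    (hjk : j ≠ k) (ht : μ i + μ k - 61/200 * μ j ≤ 0) :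
    0 < μ j ∧ 200/261 * (1 - 2 * ((|μ i| - μ i)/2 + (|μ k| - μ k)/2)) ≤ μ j := by
  have h1 := h.one
  have h2 := h.sum
  rw [sum3 hij hik hjk] at h1 h2
  have s0 := B_aux_sum (m := μ i) (h.nn i) (h.le i)
  have s1 := B_aux_sum (m := μ j) (h.nn j) (h.le j)
  have s2 := B_aux_sum (m := μ k) (h.nn k) (h.le k)
  have hpos : 0 < μ j := by
    by_contra hn
    have hn' : μ j ≤ 0 := not_lt.mp hn
    rw [abs_of_nonpos hn'] at h1 s1 h2
    linarith
  refine ⟨hpos, ?_⟩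
  rw [abs_of_pos hpos] at h1
  linarith

private theorem B_V {μ X : E} (h : Cor μ X) {i j k : Fin 3} (hij : i ≠ j) (hik : i ≠ k)
    (hjk : j ≠ k) {ξ : ℝ} (hi : ξ ≤ X i) (hk : ξ ≤ X k) (hj : 0 ≤ μ j) :
    (13/10 + ξ) * ((|μ i| - μ i)/2 + (|μ k| - μ k)/2) + μ j * (13/10 - X j) ≤ 3/10 := by
  have h2 := h.sum
  rw [sum3 hij hik hjk] at h2
  have s0 := B_aux_sum (m := μ i) hi (h.le i)
  have s2 := B_aux_sum (m := μ k) hk (h.le k)
  rw [abs_of_nonneg hj] at h2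
  linarith

theorem cor_tilt {μ X : E} (h : Cor μ X) {i j k : Fin 3} (hij : i ≠ j) (hik : i ≠ k)
    (hjk : j ≠ k) (ht : μ i + μ k - 61/200 * μ j ≤ 0) :
    2/5 ≤ μ j ∧ 9/10 ≤ X j := by
  obtain ⟨hpos, hμ⟩ := B_aux_tilt h hij hik hjk ht
  have hV := B_V h hij hik hjk (h.nn i) (h.nn k) hpos.le
  have hj := mul_nonneg hpos.le (sub_nonneg.mpr (h.le j))
  have hi0 : 0 ≤ (|μ i| - μ i)/2 := by
    have := le_abs_self (μ i)
    linarith
  have hk0 : 0 ≤ (|μ k| - μ k)/2 := by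
    have := le_abs_self (μ k)
    linarith
  refine ⟨by linarith, ?_⟩
  by_contra hn
  have hn' : X j < 9/10 := not_le.mp hn
  have h3 : μ j * (2/5) ≤ μ j * (13/10 - X j) :=
    mul_le_mul_of_nonneg_left (by linarith) hpos.le
  linarith

theorem cor_tilt_b {μ X : E} (h : Cor μ X) {i j k : Fin 3} (hij : i ≠ j) (hik : i ≠ k)
    (hjk : j ≠ k) (ht : μ i + μ k - 61/200 * μ j ≤ 0) (hi : 88/100 ≤ X i) (hk : 88/100 ≤ X k) :
    11/20 < μ j := by
  obtain ⟨hpos, hμ⟩ := B_aux_tilt h hij hik hjk ht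
  have hV := B_V h hij hik hjk hi hk hpos.le
  have hj := mul_nonneg hpos.le (sub_nonneg.mpr (h.le j))
  linarith

end Pool.Agent.Lib.MP_5e7226_co.L7
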