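import Pool.Agent.Lib.MP_5e7226_co.L7.Defs

/-!
# The core inequality of the merging lemma (pure real arithmetic in three variables)

For `μ i < 0` (the wrong sign) the summand `13/10 |μ i| - μ i X i = |μ i| (13/10 + X i)`, for `μ i > 0` it is
`μ i (13/10 - X i)`; all summands are `≥ 0` and their sum is `≤ 3/10` (the budget). Hence the wrong mass
`W` (sum of the wrong `|μ i|`) is at most `3/13`, and if `ξ ≤ X i` for the wrong `i`
then `W ≤ (3/10)/(13/10 + ξ)`.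

* `cor_merge`: let `P`, `q` be the positive and the wrong mass in `i, j`; `q ≤ 3/22` (as `X i, X j ≥ 9/10`);
  `(799/1000) P - (1401/1000) q ≤ a μ i + b μ j ≤ - ω μ k ≤ (301/1000) |μ k|`, `|μ k| = 1 - P - q`.
  If `μ k < 0` then `|μ k| + q ≤ 3/13`, so `P ≥ 10/13`, contradiction to
  `(799/1000) P ≤ (1401/1000) q + (301/1000) |μ k| ≤ (1401/1000)(3/13)`.
  So `μ k = 1 - P - q` and `(11/10) P ≤ 301/1000 + (11/10) q`, i.e. `P ≤ 301/1100 + q`,
  `μ k ≥ 799/1100 - 2 q ≥ 799/1100 - 3/11 = .4536 > 453/1000`. And if `X k < 88/100` then the budget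
  gives `(21/50) μ k + (11/5) q < 3/10`, with `μ k ≥ 799/1100 - 2 q`: contradiction.


Case distinctions on the signs of `μ i, μ j, μ k` (`abs_of_nonneg`, `abs_of_neg`) and `nlinarith`
with the products `|μ i| * (X i - 9/10)` etc.; first reduce with `GB.sum3 hij hik hjk`.
-/

set_option autoImplicit false

open Set Filter Topology

namespace Pool.Agent.Lib.MP_5e7226_co.L7

open GB

private theorem B2_parts (m : ℝ) : ∃ p q : ℝ, 0 ≤ p ∧ 0 ≤ q ∧ m = p - q ∧ |m| = p + q := by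
  rcases le_total 0 m with h | h
  · exact ⟨m, 0, h, le_rfl, by ring, by rw [abs_of_nonneg h]; ring⟩
  · exact ⟨0, -m, le_rfl, by linarith, by ring, by rw [abs_of_nonpos h]; ring⟩

private theorem B2_term {m x p q : ℝ} (hp : 0 ≤ p) (hq : 0 ≤ q) (h1 : m = p - q)
    (h2 : |m| = p + q) (hx : 9/10 ≤ x) (hx' : x ≤ 13/10) :
    22/10 * q ≤ 13/10 * |m| - m * x := by
  rw [h2, h1]
  nlinarith [mul_nonneg hp (sub_nonneg.2 hx'), mul_nonneg hq (sub_nonneg.2 hx)]

private theorem B2_lin {m a p q : ℝ} (hp : 0 ≤ p) (hq : 0 ≤ q) (h1 : m = p - q)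
    (ha : 799/1000 ≤ a ∧ a ≤ 1401/1000) : 799/1000 * p - 1401/1000 * q ≤ a * m := by
  rw [h1]
  nlinarith [mul_nonneg hp (sub_nonneg.2 ha.1), mul_nonneg hq (sub_nonneg.2 ha.2)]

theorem cor_merge {μ X : E} (h : Cor μ X) {i j k : Fin 3} (hij : i ≠ j) (hik : i ≠ k)
    (hjk : j ≠ k) (hi : 9/10 ≤ X i) (hj : 9/10 ≤ X j) {ω a b : ℝ} (hω : |ω| ≤ 301/1000)
    (ha : 799/1000 ≤ a ∧ a ≤ 1401/1000) (hb : 799/1000 ≤ b ∧ b ≤ 1401/1000)
    (ht : ω * μ k + a * μ i + b * μ j ≤ 0) :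
    453/1000 ≤ μ k ∧ 88/100 ≤ X k := by
  have hone := h.one
  have hsum := h.sum
  rw [sum3 hij hik hjk] at hone hsum
  obtain ⟨p1, q1, hp1, hq1, e1, f1⟩ := B2_parts (μ i)
  obtain ⟨p2, q2, hp2, hq2, e2, f2⟩ := B2_parts (μ j)
  have t1 := B2_term hp1 hq1 e1 f1 hi (h.le i)
  have t2 := B2_term hp2 hq2 e2 f2 hj (h.le j)
  have l1 := B2_lin hp1 hq1 e1 ha
  have l2 := B2_lin hp2 hq2 e2 hb
  have lw : -(ω * μ k) ≤ 301/1000 * |μ k| := by
    have h1 := neg_le_abs (ω * μ k)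
    rw [abs_mul] at h1
    have h2 := mul_le_mul_of_nonneg_right hω (abs_nonneg (μ k))
    linarith
  have hle := h.le k
  have hnn := h.nn k
  have hpos : 0 ≤ μ k := by
    by_contra hneg
    have hneg' : μ k ≤ 0 := (not_le.1 hneg).le
    have habs : |μ k| = - μ k := abs_of_nonpos hneg'
    have t3 : 13/10 * |μ k| ≤ 13/10 * |μ k| - μ k * X k := by
      nlinarith [mul_nonneg (neg_nonneg.2 hneg') hnn]
    rw [habs] at t3 hone lw hsum
    rw [f1, f2] at hone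
    linarith
  have habs : |μ k| = μ k := abs_of_nonneg hpos
  rw [habs] at hone lw hsum
  have t3 : 0 ≤ 13/10 * μ k - μ k * X k := by
    nlinarith [mul_nonneg hpos (sub_nonneg.2 hle)]
  rw [f1, f2] at hone
  refine ⟨by linarith, ?_⟩
  by_contra hx
  have hx' : X k ≤ 88/100 := (not_le.1 hx).le
  have t4 : 42/100 * μ k ≤ 13/10 * μ k - μ k * X k := by
    nlinarith [mul_nonneg hpos (sub_nonneg.2 hx')]
  linarith

end Pool.Agent.Lib.MP_5e7226_co.L7
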