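import Pool.Agent.Lib.MP_5e7226_co.L7.A1
import Pool.Agent.Lib.MP_5e7226_co.L7.B

/-!
# Serving whole octants; facts about dark points

`serve_oct`: if not, `exists_nrm` gives a normal `m` with `dt m (fun i => -(sg v i * c i)) ≤ 0`; with
`μ i = - sg v i * m i` this is `∑ c i * μ i ≤ 0`, contradiction to `cor_pos` (`cor_of_nrm`).

`not_serve_dv`: the normal `m` of `exists_nrm` for the direction `dv v j`; in the reduced variables
`dt m (dv v j) = μ i + μ k - 61/200 μ j` where `{i,j,k}` are the three axes (`GB.sum3`).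

`dark_strong`: `cor_tilt` gives `9/10 ≤ sg v j * x j` for all `j`, then `cor_tilt_b` gives the
claim.
-/

set_option autoImplicit false

open Set Filter Topology

namespace Pool.Agent.Lib.MP_5e7226_co.L7

open GB

theorem serve_oct {L : Set E} (hS : Sand L) {x : E} (hx : x ∈ L) (v : Fin 8)
    (hv : ∀ i, 0 ≤ sg v i * x i) (c : E) (hc : ∀ i, 61/200 ≤ c i ∧ c i ≤ 1) :
    Serve L x (fun i => -(sg v i * c i)) := by
  by_contra h
  obtain ⟨m, hm, hd⟩ := exists_nrm hS hx h
  have h1 := cor_pos (cor_of_nrm hS hx hm v hv) hc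
  have h2 : dt m (fun i => -(sg v i * c i)) = ∑ i, c i * (- sg v i * m i) := by
    unfold dt
    refine Finset.sum_congr rfl fun i _ => ?_
    ring
  rw [h2] at hd
  exact absurd h1 (not_lt.2 hd)

/-- the reduced form of a point not served by `dv v j` -/
theorem not_serve_dv {L : Set E} (hS : Sand L) {x : E} (hx : x ∈ L) (v : Fin 8)
    {i j k : Fin 3} (hij : i ≠ j) (hik : i ≠ k) (hjk : j ≠ k)
    (h : ¬ Serve L x (dv v j)) :
    ∃ m, Nrm L x m ∧ (- sg v i * m i) + (- sg v k * m k) - 61/200 * (- sg v j * m j) ≤ 0 := by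
  obtain ⟨m, hm, hd⟩ := exists_nrm hS hx h
  refine ⟨m, hm, ?_⟩
  have h1 : dt m (dv v j) =
      (- sg v i * m i) + (- sg v k * m k) - 61/200 * (- sg v j * m j) := by
    unfold dt
    rw [sum3 hij hik hjk]
    unfold dv
    rw [if_neg hij, if_pos rfl, if_neg (Ne.symm hjk)]
    ring
  rw [← h1]
  exact hd

private theorem C_others (j : Fin 3) : ∃ i k : Fin 3, i ≠ j ∧ i ≠ k ∧ j ≠ k := by
  revert j; decide

theorem dark_strong {L : Set E} (hS : Sand L) {v : Fin 8} {x : E} (hd : Dark L v x) :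
    (∀ i, ∃ m, Nrm L x m ∧ (11/20 : ℝ) < - sg v i * m i) ∧ ∀ i, 9/10 ≤ sg v i * x i := by
  have h2 : ∀ i, 9/10 ≤ sg v i * x i := by
    intro j
    obtain ⟨i, k, hij, hik, hjk⟩ := C_others j
    obtain ⟨m, hm, ht⟩ := not_serve_dv hS hd.mem v hij hik hjk (hd.dark j)
    exact (cor_tilt (cor_of_nrm hS hd.mem hm v hd.oct) hij hik hjk ht).2
  refine ⟨fun j => ?_, h2⟩
  obtain ⟨i, k, hij, hik, hjk⟩ := C_others j
  obtain ⟨m, hm, ht⟩ := not_serve_dv hS hd.mem v hij hik hjk (hd.dark j)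
  have hi := h2 i
  have hk := h2 k
  exact ⟨m, hm, cor_tilt_b (cor_of_nrm hS hd.mem hm v hd.oct) hij hik hjk ht
    (le_trans (by norm_num) hi) (le_trans (by norm_num) hk)⟩

private theorem C_bits : ∀ b₀ b₁ b₂ : Bool,
    ∃ v : Fin 8, bit v 0 = b₀ ∧ bit v 1 = b₁ ∧ bit v 2 = b₂ := by
  decide

private theorem C_sb (t : ℝ) : 0 ≤ sb (decide (t < 0)) * t := by
  by_cases h : t < 0
  · simp only [h, decide_true, sb, if_true]
    linarith
  · simp only [h, decide_false, sb]
    have := not_lt.1 h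
    simpa using this

/-- every point lies in a closed octant -/
theorem exists_oct (x : E) : ∃ v : Fin 8, ∀ i, 0 ≤ sg v i * x i := by
  obtain ⟨v, h0, h1, h2⟩ := C_bits (decide (x 0 < 0)) (decide (x 1 < 0)) (decide (x 2 < 0))
  refine ⟨v, fun i => ?_⟩
  fin_cases i
  · show 0 ≤ sb (bit v 0) * x 0
    rw [h0]
    exact C_sb _
  · show 0 ≤ sb (bit v 1) * x 1
    rw [h1]
    exact C_sb _
  · show 0 ≤ sb (bit v 2) * x 2
    rw [h2]
    exact C_sb _

end Pool.Agent.Lib.MP_5e7226_co.L7
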