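import Pool.Agent.Lib.MP_5e7226_co.GB.Base

/-!
# Bodies near a parallelepiped: definitions

`C = [-1,1]^3 ⊆ L ⊆ (13/10) C`. We show that 7 directions illuminate `L` or `L` is a
parallelepiped.
-/

set_option autoImplicit false

open Set Filter Topology

namespace Pool.Agent.Lib.MP_5e7226_co.L7

open GB

/-- scalar product of the functional `m` and the vector `x` -/
def dt (m x : E) : ℝ := ∑ i, m i * x i

/-- `m` is a normalised inner normal of `L` at `x` -/
def Nrm (L : Set E) (x m : E) : Prop := ∑ i, |m i| = 1 ∧ ∀ y ∈ L, dt m x ≤ dt m y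

/-- `C ⊆ L ⊆ (13/10) C` for the cube `C = [-1,1]^3` -/
structure Sand (L : Set E) : Prop where
  conv : Convex ℝ L
  cpt : IsCompact L
  inn : ∀ y : E, (∀ i, |y i| ≤ 1) → y ∈ L
  out : ∀ y ∈ L, ∀ i, |y i| ≤ 13/10

/-- the direction `- sg v` with the coordinate `j` replaced by `(61/200) sg v j`: this is the
direction used for the neighbour `flip v j` of the corner `v`, with the coordinate `j` shortened -/
noncomputable def dv (v : Fin 8) (j : Fin 3) : E := fun i => if i = j then (61/200) * sg v i else - sg v i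

/-- the point `x` of `L` lies in the closed octant of `v` and is served by none of the three
shortened directions `dv v j` -/
structure Dark (L : Set E) (v : Fin 8) (x : E) : Prop where
  mem : x ∈ L
  oct : ∀ i, 0 ≤ sg v i * x i
  dark : ∀ j, ¬ Serve L x (dv v j)

/-- the reduced inequalities: `μ i = - sg v i * m i`, `X i = sg v i * x i` -/
structure Cor (μ X : E) : Prop where
  one : ∑ i, |μ i| = 1
  nn : ∀ i, 0 ≤ X i
  le : ∀ i, X i ≤ 13/10
  sum : ∑ i, (13/10 * |μ i| - μ i * X i) ≤ 3/10

/-- the mean of the four edge vectors of axis `j` of the eight points `x v` -/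
noncomputable def eb (x : Fin 8 → E) (j : Fin 3) : E := (1/4 : ℝ) • ∑ v, sg v j • x v

/-- the centre of the eight points -/
noncomputable def ctr (x : Fin 8 → E) : E := (1/8 : ℝ) • ∑ v, x v

/-- second Fourier coefficient -/
noncomputable def A2 (x : Fin 8 → E) (i j : Fin 3) : E := (1/8 : ℝ) • ∑ v, (sg v i * sg v j) • x v

/-- third Fourier coefficient -/
noncomputable def A3 (x : Fin 8 → E) (i j k : Fin 3) : E :=
  (1/8 : ℝ) • ∑ v, (sg v i * sg v j * sg v k) • x v

/-- the bounds for the coordinates of the eight points -/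
def Bd (x : Fin 8 → E) : Prop := ∀ v i, 9/10 ≤ sg v i * x v i ∧ sg v i * x v i ≤ 13/10

/-- `φ` gives the coordinates with respect to the vectors `eb x j` -/
structure Dual (x : Fin 8 → E) (φ : E →ₗ[ℝ] E) : Prop where
  single : ∀ j, φ (eb x j) = Pi.single j 1
  expand : ∀ y, y = ∑ j, φ y j • eb x j

/-- `L` is a parallelepiped -/
def IsPar (L : Set E) : Prop :=
  ∃ (c : E) (e : Fin 3 → E), LinearIndependent ℝ e ∧
    L = {y | ∃ t : Fin 3 → ℝ, (∀ i, |t i| ≤ 1) ∧ y = c + ∑ i, t i • e i}

end Pool.Agent.Lib.MP_5e7226_co.L7
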