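import Pool.Agent.Lib.MP_5e7226_co.L7.Defs

/-!
# Coordinates with respect to the mean edge vectors

All sums over `Fin 8` can be written out: `simp [Fin.sum_univ_eight, eb, sg, bit, sb]`; the bit of
`v` at `k` is `v.val.testBit k.val` (`decide`). With `z v i = sg v i * x v i ∈ [9/10, 13/10]` one has
`x v i = sg v i * z v i`.

* `eb_diag`: `eb x j j = (1/4) ∑ z v j ∈ [9/5, 13/5]`.
* `eb_off`: for `i ≠ j`: `eb x j i = (1/4) ∑ (sg v j * sg v i) z v i`, four signs `+`, four `-`: absolute
  value at most `13/10 - 9/10 = 2/5`.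
* `A2_le`, `A3_le`: same with `1/8` and balanced signs: at most `1/5`.
-/

set_option autoImplicit false

open Set Filter Topology

namespace Pool.Agent.Lib.MP_5e7226_co.L7

open GB

/-- a balanced sum of signs times numbers in `[9/10, 13/10]` -/
theorem F_bal {a z : Fin 8 → ℝ} (ha : ∀ v, |a v| = 1) (h0 : ∑ v, a v = 0)
    (hz : ∀ v, 9/10 ≤ z v ∧ z v ≤ 13/10) : |∑ v, a v * z v| ≤ 8/5 := by
  have h1 : ∑ v, a v * z v = ∑ v, a v * (z v - 11/10) := by
    have h2 : ∑ v, a v * (z v - 11/10) = ∑ v, a v * z v - (∑ v, a v) * (11/10) := by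
      rw [Finset.sum_mul, ← Finset.sum_sub_distrib]
      exact Finset.sum_congr rfl fun v _ => by ring
    rw [h2, h0]
    ring
  rw [h1]
  calc |∑ v, a v * (z v - 11/10)| ≤ ∑ v, |a v * (z v - 11/10)| := Finset.abs_sum_le_sum_abs _ _
    _ ≤ ∑ _v : Fin 8, (1/5 : ℝ) := by
        refine Finset.sum_le_sum fun v _ => ?_
        rw [abs_mul, ha v, one_mul, abs_le]
        constructor <;> linarith [(hz v).1, (hz v).2]
    _ = 8/5 := by
        rw [Finset.sum_const, Finset.card_univ, Fintype.card_fin]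
        norm_num

theorem F_abs (v : Fin 8) (i : Fin 3) : |sg v i| = 1 := abs_sb _

theorem F_sq (v : Fin 8) (i : Fin 3) : sg v i * sg v i = 1 := sb_sq _

theorem F_sum2 {i j : Fin 3} (h : i ≠ j) : ∑ v, sg v i * sg v j = 0 := by
  revert h
  fin_cases i <;> fin_cases j <;> simp [Fin.sum_univ_eight, sg, bit, sb, Nat.testBit]

theorem F_sum1 (i : Fin 3) : ∑ v, sg v i = 0 := by
  fin_cases i <;> simp [Fin.sum_univ_eight, sg, bit, sb, Nat.testBit]

theorem F_sum3 {i j k : Fin 3} (hij : i ≠ j) (hik : i ≠ k) (hjk : j ≠ k) :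
    ∑ v, sg v i * sg v j * sg v k = 0 := by
  revert hij hik hjk
  fin_cases i <;> fin_cases j <;> fin_cases k <;>
    simp [Fin.sum_univ_eight, sg, bit, sb, Nat.testBit]

theorem eb_diag {x : Fin 8 → E} (hb : Bd x) (j : Fin 3) :
    9/5 ≤ eb x j j ∧ eb x j j ≤ 13/5 := by
  have e : eb x j j = (1/4) * ∑ v, sg v j * x v j := by
    unfold eb
    rw [Pi.smul_apply, Finset.sum_apply, smul_eq_mul]
    rfl
  rw [e, Fin.sum_univ_eight]
  have h0 := hb 0 j
  have h1 := hb 1 j
  have h2 := hb 2 j
  have h3 := hb 3 j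
  have h4 := hb 4 j
  have h5 := hb 5 j
  have h6 := hb 6 j
  have h7 := hb 7 j
  constructor <;> linarith [h0.1, h0.2, h1.1, h1.2, h2.1, h2.2, h3.1, h3.2, h4.1, h4.2, h5.1,
    h5.2, h6.1, h6.2, h7.1, h7.2]

theorem eb_off {x : Fin 8 → E} (hb : Bd x) {i j : Fin 3} (h : i ≠ j) :
    |eb x j i| ≤ 2/5 := by
  have e : eb x j i = (1/4) * ∑ v, (sg v j * sg v i) * (sg v i * x v i) := by
    unfold eb
    rw [Pi.smul_apply, Finset.sum_apply, smul_eq_mul]
    congr 1
    refine Finset.sum_congr rfl fun v _ => ?_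
    rw [Pi.smul_apply, smul_eq_mul, mul_assoc, ← mul_assoc (sg v i) (sg v i), F_sq, one_mul]
  have h1 := F_bal (a := fun v => sg v j * sg v i) (z := fun v => sg v i * x v i)
    (fun v => by rw [abs_mul, F_abs, F_abs, mul_one]) (F_sum2 h.symm) (fun v => hb v i)
  rw [e, abs_mul, abs_of_nonneg (by norm_num : (0 : ℝ) ≤ 1/4)]
  linarith

theorem A2_le {x : Fin 8 → E} (hb : Bd x) {i j : Fin 3} (h : i ≠ j) (l : Fin 3) :
    |A2 x i j l| ≤ 1/5 := by
  have e : A2 x i j l = (1/8) * ∑ v, (sg v i * sg v j * sg v l) * (sg v l * x v l) := by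
    unfold A2
    rw [Pi.smul_apply, Finset.sum_apply, smul_eq_mul]
    congr 1
    refine Finset.sum_congr rfl fun v _ => ?_
    rw [Pi.smul_apply, smul_eq_mul, mul_assoc (sg v i * sg v j), ← mul_assoc (sg v l) (sg v l),
      F_sq, one_mul]
  have h0 : ∑ v, sg v i * sg v j * sg v l = 0 := by
    by_cases h1 : l = i
    · subst h1
      rw [← F_sum1 j]
      refine Finset.sum_congr rfl fun v _ => ?_
      rw [mul_right_comm, F_sq, one_mul]
    · by_cases h2 : l = j
      · subst h2
        rw [← F_sum1 i]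
        refine Finset.sum_congr rfl fun v _ => ?_
        rw [mul_assoc, F_sq, mul_one]
      · exact F_sum3 h (Ne.symm h1) (Ne.symm h2)
  have h1 := F_bal (a := fun v => sg v i * sg v j * sg v l) (z := fun v => sg v l * x v l)
    (fun v => by rw [abs_mul, abs_mul, F_abs, F_abs, F_abs, mul_one, mul_one]) h0
    (fun v => hb v l)
  rw [e, abs_mul, abs_of_nonneg (by norm_num : (0 : ℝ) ≤ 1/8)]
  linarith

theorem A3_le {x : Fin 8 → E} (hb : Bd x) {i j k : Fin 3} (hij : i ≠ j) (hik : i ≠ k)
    (hjk : j ≠ k) (l : Fin 3) : |A3 x i j k l| ≤ 1/5 := by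
  have e : A3 x i j k l =
      (1/8) * ∑ v, (sg v i * sg v j * sg v k * sg v l) * (sg v l * x v l) := by
    unfold A3
    rw [Pi.smul_apply, Finset.sum_apply, smul_eq_mul]
    congr 1
    refine Finset.sum_congr rfl fun v _ => ?_
    rw [Pi.smul_apply, smul_eq_mul, mul_assoc (sg v i * sg v j * sg v k),
      ← mul_assoc (sg v l) (sg v l), F_sq, one_mul]
  have h0 : ∑ v, sg v i * sg v j * sg v k * sg v l = 0 := by
    by_cases h1 : l = i
    · subst h1
      rw [← F_sum2 hjk]
      refine Finset.sum_congr rfl fun v _ => ?_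
      have := F_sq v l
      linear_combination (sg v j * sg v k) * this
    · by_cases h2 : l = j
      · subst h2
        rw [← F_sum2 hik]
        refine Finset.sum_congr rfl fun v _ => ?_
        have := F_sq v l
        linear_combination (sg v i * sg v k) * this
      · have h3 : l = k := by
          revert h1 h2 hij hik hjk
          fin_cases i <;> fin_cases j <;> fin_cases k <;> fin_cases l <;> simp
        subst h3
        rw [← F_sum2 hij]
        refine Finset.sum_congr rfl fun v _ => ?_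
        have := F_sq v l
        linear_combination (sg v i * sg v j) * this
  have h1 := F_bal (a := fun v => sg v i * sg v j * sg v k * sg v l)
    (z := fun v => sg v l * x v l)
    (fun v => by rw [abs_mul, abs_mul, abs_mul, F_abs, F_abs, F_abs, F_abs, mul_one, mul_one,
      mul_one]) h0 (fun v => hb v l)
  rw [e, abs_mul, abs_of_nonneg (by norm_num : (0 : ℝ) ≤ 1/8)]
  linarith

end Pool.Agent.Lib.MP_5e7226_co.L7
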