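import Pool.Agent.Lib.MP_5e7226_co.L7.F

/-!
# The dual basis of the mean edge vectors

* `exists_dual`: the matrix `B` with entries `B i j = eb x j i` has
  `∑_{j ≠ i} |B i j| ≤ 4/5 < 9/5 ≤ |B i i|`, so `det B ≠ 0`
  (`det_ne_zero_of_sum_row_lt_diag` / `det_ne_zero_of_sum_col_lt_diag` in Mathlib); `φ = B⁻¹.mulVecLin`.
* `dual_bound`: if `y` has `|y i| ≤ b` for all `i` then `|φ y i| ≤ b` (for the index `l` of the
  largest `|φ y l|`: `b ≥ |y l| ≥ (9/5 - 4/5) |φ y l|`).
-/

set_option autoImplicit false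

open Set Filter Topology

namespace Pool.Agent.Lib.MP_5e7226_co.L7

open GB

theorem exists_dual {x : Fin 8 → E} (hb : Bd x) :
    LinearIndependent ℝ (eb x) ∧ ∃ φ : E →ₗ[ℝ] E, Dual x φ := by
  set B : Matrix (Fin 3) (Fin 3) ℝ := Matrix.of fun i j => eb x j i with hB
  have hBe : ∀ i j, B i j = eb x j i := fun i j => rfl
  have hdet : B.det ≠ 0 := by
    apply det_ne_zero_of_sum_row_lt_diag
    intro k
    have h1 : ∑ j ∈ Finset.univ.erase k, ‖B k j‖ ≤ ∑ _j ∈ Finset.univ.erase k, (2 / 5 : ℝ) := by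
      refine Finset.sum_le_sum fun j hj => ?_
      rw [hBe, Real.norm_eq_abs]
      exact eb_off hb (Finset.ne_of_mem_erase hj).symm
    have h2 : ∑ _j ∈ Finset.univ.erase k, (2 / 5 : ℝ) = 4 / 5 := by
      rw [Finset.sum_const, Finset.card_erase_of_mem (Finset.mem_univ k), Finset.card_univ,
        Fintype.card_fin]
      norm_num
    have h3 : (9 / 5 : ℝ) ≤ ‖B k k‖ := by
      rw [hBe, Real.norm_eq_abs]
      exact (eb_diag hb k).1.trans (le_abs_self _)
    linarith
  have hsum : ∀ c : E, B.mulVec c = ∑ j, c j • eb x j := by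
    intro c
    ext i
    rw [Finset.sum_apply]
    simp only [Matrix.mulVec, dotProduct, Pi.smul_apply, smul_eq_mul]
    exact Finset.sum_congr rfl fun j _ => by rw [hBe, mul_comm]
  have hunit : IsUnit B.det := isUnit_iff_ne_zero.mpr hdet
  refine ⟨?_, (B⁻¹).mulVecLin, ?_, ?_⟩
  · rw [Fintype.linearIndependent_iff]
    intro g hg
    rw [← hsum] at hg
    have := Matrix.eq_zero_of_mulVec_eq_zero hdet hg
    intro i
    rw [this]
    rfl
  · intro j
    have h1 : eb x j = B.mulVec (Pi.single j 1) := by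
      ext i
      rw [Matrix.mulVec_single_one]
      rfl
    rw [Matrix.mulVecLin_apply, h1, Matrix.mulVec_mulVec, Matrix.nonsing_inv_mul _ hunit,
      Matrix.one_mulVec]
  · intro y
    rw [← hsum, Matrix.mulVecLin_apply, Matrix.mulVec_mulVec, Matrix.mul_nonsing_inv _ hunit,
      Matrix.one_mulVec]

theorem dual_bound {x : Fin 8 → E} (hb : Bd x) {φ : E →ₗ[ℝ] E} (hφ : Dual x φ) {y : E} {b : ℝ}
    (hy : ∀ i, |y i| ≤ b) (i : Fin 3) : |φ y i| ≤ b := by
  obtain ⟨l, -, hl⟩ := Finset.exists_max_image (Finset.univ : Finset (Fin 3)) (fun i => |φ y i|)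
    ⟨0, Finset.mem_univ _⟩
  have hmax : ∀ j, |φ y j| ≤ |φ y l| := fun j => hl j (Finset.mem_univ j)
  have hy1 : y l = ∑ j, φ y j * eb x j l := by
    have h := congrFun (hφ.expand y) l
    rw [Finset.sum_apply] at h
    simpa only [Pi.smul_apply, smul_eq_mul] using h
  rw [← Finset.add_sum_erase _ _ (Finset.mem_univ l)] at hy1
  have h1 : |∑ j ∈ Finset.univ.erase l, φ y j * eb x j l| ≤ 4 / 5 * |φ y l| := by
    refine (Finset.abs_sum_le_sum_abs _ _).trans ?_
    have h2 : ∑ j ∈ Finset.univ.erase l, |φ y j * eb x j l|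
        ≤ ∑ _j ∈ Finset.univ.erase l, (2 / 5 * |φ y l|) := by
      refine Finset.sum_le_sum fun j hj => ?_
      rw [abs_mul, mul_comm]
      exact mul_le_mul (eb_off hb (Finset.ne_of_mem_erase hj).symm) (hmax j) (abs_nonneg _)
        (by norm_num)
    refine h2.trans (le_of_eq ?_)
    rw [Finset.sum_const, Finset.card_erase_of_mem (Finset.mem_univ l), Finset.card_univ,
      Fintype.card_fin, nsmul_eq_mul]
    push_cast
    ring
  have h3 : 9 / 5 * |φ y l| ≤ |φ y l * eb x l l| := by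
    rw [abs_mul, mul_comm]
    exact mul_le_mul_of_nonneg_left ((eb_diag hb l).1.trans (le_abs_self _)) (abs_nonneg _)
  have h4 : |φ y l * eb x l l| ≤ |y l| + |∑ j ∈ Finset.univ.erase l, φ y j * eb x j l| := by
    have h5 : φ y l * eb x l l = y l - ∑ j ∈ Finset.univ.erase l, φ y j * eb x j l := by
      rw [hy1]; ring
    rw [h5]
    exact abs_sub _ _
  have h6 := hy l
  have h7 := hmax i
  linarith

end Pool.Agent.Lib.MP_5e7226_co.L7
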