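import Pool.Agent.Lib.MP_5e7226_co.L7.F2

/-!
# The eight points are the vertices of a parallelepiped

From the inequality `1 ≤ φ (x (flip v k) - x v) k - 2 θ φ (A2 x i j) k` for `θ = ± 1/100` and the four
edges of every axis `k`.

Fix `k` and let `f v = φ (x v) k` (a real function on `Fin 8`). `φ (eb x k) k = 1` says
`(1/4) ∑ sg v k f v = 1`, i.e. the mean of `f (flip v k) - f v` over the four `v` with `sg v k = -1`
is `1`. Summing the hypothesis over the four edges: `4 ≤ 4 - 8 θ φ (A2 x i j) k` for both signs of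
`θ`, so `φ (A2 x i j) k = 0`, i.e. `∑ sg v i sg v j f v = 0`; and then each `f (flip v k) - f v = 1`.
Also `φ (eb x i) k = 0`, `φ (eb x j) k = 0`: `∑ sg v i f v = 0`, `∑ sg v j f v = 0`. These linear
relations among the eight numbers `f v` give `f v = (1/8) ∑ f + (1/2) sg v k` (`linarith` after writing
out the sums with `Fin.sum_univ_eight`). So `φ (x v) k = φ (ctr x) k + (1/2) sg v k` for every `k`, hence
`φ (x v) = φ (ctr x + ∑ l, (1/2 * sg v l) • eb x l)`, and `Dual.expand` gives the claim.
-/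

set_option autoImplicit false

open Set Filter Topology

namespace Pool.Agent.Lib.MP_5e7226_co.L7

open GB

private def P_T : Fin 8 → Fin 3 → ℝ :=
  ![![1, 1, 1], ![-1, 1, 1], ![1, -1, 1], ![-1, -1, 1], ![1, 1, -1], ![-1, 1, -1], ![1, -1, -1],
    ![-1, -1, -1]]

private lemma P_sg (v : Fin 8) (k : Fin 3) : sg v k = P_T v k := by
  fin_cases v <;> fin_cases k <;> simp [sg, sb, bit, P_T, Nat.testBit_succ]

/-- the numbers `f v` for one axis -/
theorem fourier_axis (f : Fin 8 → ℝ) {i j k : Fin 3} (hij : i ≠ j) (hik : i ≠ k) (hjk : j ≠ k)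
    (hk : ∑ v, sg v k * f v = 4) (hi : ∑ v, sg v i * f v = 0) (hj : ∑ v, sg v j * f v = 0)
    (h : ∀ v, sg v k = -1 → ∀ θ : ℝ, |θ| ≤ 1/100 →
      1 ≤ f (flip v k) - f v - 2 * θ * ((1/8) * ∑ u, sg u i * sg u j * f u)) (v : Fin 8) :
    f v = (1/8) * ∑ u, f u + (1/2) * sg v k := by
  have hp : |(1/100 : ℝ)| ≤ 1/100 := by rw [abs_of_pos] <;> norm_num
  have hm : |(-(1/100) : ℝ)| ≤ 1/100 := by rw [abs_neg]; exact hp
  have h1 : ∀ v, sg v k = -1 → 1 ≤ f (flip v k) - f v - 2 * (1/100) * ((1/8) * ∑ u, sg u i * sg u j * f u) :=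
    fun v hv => h v hv _ hp
  have h2 : ∀ v, sg v k = -1 → 1 ≤ f (flip v k) - f v - 2 * (-(1/100)) * ((1/8) * ∑ u, sg u i * sg u j * f u) :=
    fun v hv => h v hv _ hm
  clear h hp hm
  simp only [P_sg, Fin.sum_univ_eight] at *
  fin_cases k
  · have a1 := h1 1 (by simp [P_T])
    have a2 := h1 3 (by simp [P_T])
    have a3 := h1 5 (by simp [P_T])
    have a4 := h1 7 (by simp [P_T])
    have b1 := h2 1 (by simp [P_T])
    have b2 := h2 3 (by simp [P_T])
    have b3 := h2 5 (by simp [P_T])
    have b4 := h2 7 (by simp [P_T])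
    have e1 : flip 1 0 = 0 := by decide
    have e2 : flip 3 0 = 2 := by decide
    have e3 : flip 5 0 = 4 := by decide
    have e4 : flip 7 0 = 6 := by decide
    fin_cases i <;> fin_cases j <;> first | exact absurd rfl hij | exact absurd rfl hik | exact absurd rfl hjk | skip
    all_goals
      simp [P_T, e1, e2, e3, e4] at *
      fin_cases v <;> simp <;> linarith
  · have a1 := h1 2 (by simp [P_T])
    have a2 := h1 3 (by simp [P_T])
    have a3 := h1 6 (by simp [P_T])
    have a4 := h1 7 (by simp [P_T])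
    have b1 := h2 2 (by simp [P_T])
    have b2 := h2 3 (by simp [P_T])
    have b3 := h2 6 (by simp [P_T])
    have b4 := h2 7 (by simp [P_T])
    have e1 : flip 2 1 = 0 := by decide
    have e2 : flip 3 1 = 1 := by decide
    have e3 : flip 6 1 = 4 := by decide
    have e4 : flip 7 1 = 5 := by decide
    fin_cases i <;> fin_cases j <;> first | exact absurd rfl hij | exact absurd rfl hik | exact absurd rfl hjk | skip
    all_goals
      simp [P_T, e1, e2, e3, e4] at *
      fin_cases v <;> simp <;> linarith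
  · have a1 := h1 4 (by simp [P_T])
    have a2 := h1 5 (by simp [P_T])
    have a3 := h1 6 (by simp [P_T])
    have a4 := h1 7 (by simp [P_T])
    have b1 := h2 4 (by simp [P_T])
    have b2 := h2 5 (by simp [P_T])
    have b3 := h2 6 (by simp [P_T])
    have b4 := h2 7 (by simp [P_T])
    have e1 : flip 4 2 = 0 := by decide
    have e2 : flip 5 2 = 1 := by decide
    have e3 : flip 6 2 = 2 := by decide
    have e4 : flip 7 2 = 3 := by decide
    fin_cases i <;> fin_cases j <;> first | exact absurd rfl hij | exact absurd rfl hik | exact absurd rfl hjk | skip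
    all_goals
      simp [P_T, e1, e2, e3, e4] at *
      fin_cases v <;> simp <;> linarith

theorem vertices {x : Fin 8 → E} {φ : E →ₗ[ℝ] E} (hφ : Dual x φ)
    (h : ∀ (v : Fin 8) (i j k : Fin 3), i ≠ j → i ≠ k → j ≠ k → sg v k = -1 → ∀ θ : ℝ,
      |θ| ≤ 1/100 → 1 ≤ φ (x (flip v k) - x v) k - 2 * θ * φ (A2 x i j) k) (v : Fin 8) :
    x v = ctr x + ∑ l, (1/2 * sg v l) • eb x l := by
  have hsum : ∀ (c : Fin 8 → ℝ) (k : Fin 3), φ (∑ u, c u • x u) k = ∑ u, c u * φ (x u) k := by
    intro c k
    rw [map_sum, Finset.sum_apply]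
    exact Finset.sum_congr rfl fun u _ => by rw [map_smul]; rfl
  have heb : ∀ l k, φ (eb x l) k = (1/4) * ∑ u, sg u l * φ (x u) k := by
    intro l k
    rw [eb, map_smul, Pi.smul_apply, smul_eq_mul, hsum]
  have hctr : ∀ k, φ (ctr x) k = (1/8) * ∑ u, φ (x u) k := by
    intro k
    rw [ctr, map_smul, Pi.smul_apply, smul_eq_mul, map_sum, Finset.sum_apply]
  have hA : ∀ i j k, φ (A2 x i j) k = (1/8) * ∑ u, sg u i * sg u j * φ (x u) k := by
    intro i j k
    rw [A2, map_smul, Pi.smul_apply, smul_eq_mul, hsum]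
  have key : ∀ k : Fin 3, φ (x v) k = φ (ctr x) k + (1/2) * sg v k := by
    intro k
    obtain ⟨i, j, hij, hik, hjk⟩ : ∃ i j : Fin 3, i ≠ j ∧ i ≠ k ∧ j ≠ k := by
      revert k; decide
    have hs : ∀ l, φ (eb x l) k = if l = k then 1 else 0 := by
      intro l
      rw [hφ.single l]
      by_cases hl : l = k
      · subst hl; simp
      · rw [if_neg hl, Pi.single_apply, if_neg (Ne.symm hl)]
    have h1 := fourier_axis (fun u => φ (x u) k) hij hik hjk
      (by have := hs k; rw [heb, if_pos rfl] at this; linarith)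
      (by have := hs i; rw [heb, if_neg hik] at this; linarith)
      (by have := hs j; rw [heb, if_neg hjk] at this; linarith)
      (fun u hu θ hθ => by
        have h2 := h u i j k hij hik hjk hu θ hθ
        rw [hA, map_sub] at h2
        exact h2) v
    rw [hctr]
    exact h1
  have h1 : φ (x v) = φ (ctr x + ∑ l, (1/2 * sg v l) • eb x l) := by
    funext k
    rw [key k, map_add, map_sum, Pi.add_apply, Finset.sum_apply]
    congr 1
    rw [Finset.sum_eq_single k]
    · rw [map_smul, hφ.single]; simp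
    · intro l _ hl
      rw [map_smul, hφ.single]
      simp [Pi.single_apply, hl.symm]
    · intro hk; exact absurd (Finset.mem_univ k) hk
  calc x v = ∑ j, φ (x v) j • eb x j := hφ.expand _
    _ = ∑ j, φ (ctr x + ∑ l, (1/2 * sg v l) • eb x l) j • eb x j := by rw [h1]
    _ = _ := (hφ.expand _).symm

end Pool.Agent.Lib.MP_5e7226_co.L7
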