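import Pool.Agent.Lib.MP_5e7226_co.L7.F

/-!
# The midpoint of the chord

`range1`: the vector `w = M - (1/2)(x v + x (flip v k))`, `|ti| + |tj| + |θ| ≤ 1`, satisfies
`|w k| ≤ 3/10` and `4/5 ≤ - sg v l * w l ≤ 7/5` for `l ≠ k`.
Proof. `M = ∑ W u • x u` with `W u = (1/8)(1 + sg u k * τ u) ≥ 0`,
`τ u = ti sg u i + tj sg u j + θ sg u i sg u j`. Let `z u l = sg u l * x u l ∈ [9/10, 13/10]`, `v' = flip v k`.
For every axis `l` and sign `s` the total weight of the `u` with `sg u l = s` is `1/2`, and
`W v + W v' = 1/4` (because `τ v = τ v'` and `sg v k = - sg v' k`).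
Coordinate `k` (put `a = 1/2 - W v`, `a' = 1/2 - W v'`, both `≥ 0`, `a + a' = 3/4`):
`sg v k * w k = - a z_v + (sum of W z over the three other u on the side of v, total weight a)
 + a' z_v' - (the same on the other side, total weight a')`, so it lies in
`[-(a+a')(2/5), (a+a')(2/5)] = [-3/10, 3/10]`.
Coordinate `l ≠ k` (`v`, `v'` are on the same side for `l`):
`- sg v l * w l = a z_v + a' z_v' - (sum of W z over the two other u with sg u l = sg v l, total
weight 1/4) + (sum of W z over the four u on the other side, total weight 1/2)`, which lies between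
`(3/4)(9/10) - (1/4)(13/10) + (1/2)(9/10) = 4/5` and `(3/4)(13/10) - (1/4)(9/10) + (1/2)(13/10) = 7/5`.
In Lean, e.g.: cases on `v` (8), `k` (3) and `i, j` (2); then the coordinate inequalities follow by
`nlinarith`/`linarith` from the products `W u * (z u l - 9/10) ≥ 0`, `W u * (13/10 - z u l) ≥ 0` and
`a * (...)`, `a' * (...)`. Or first prove the statement for arbitrary weights `W : Fin 8 → ℝ` with
`0 ≤ W u`, the half-sums `1/2`, and `W v + W (flip v k) = 1/4`; then verify these for our `W`.
-/

set_option autoImplicit false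

open Set Filter Topology

namespace Pool.Agent.Lib.MP_5e7226_co.L7

open GB

/-- orthogonality of the characters: no common sign -/
private lemma H2_s1 (l : Fin 3) : ∑ u : Fin 8, sg u l = 0 := by
  fin_cases l <;> simp [Fin.sum_univ_eight, sg, bit, sb, Nat.testBit, Nat.shiftRight_eq_div_pow]

private lemma H2_s2 {i j : Fin 3} (h : i ≠ j) : ∑ u : Fin 8, sg u i * sg u j = 0 := by
  fin_cases i <;> fin_cases j <;>
    first
    | exact absurd rfl h
    | simp [Fin.sum_univ_eight, sg, bit, sb, Nat.testBit, Nat.shiftRight_eq_div_pow]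

private lemma H2_s3 {i j k : Fin 3} (hij : i ≠ j) (hik : i ≠ k) (hjk : j ≠ k) :
    ∑ u : Fin 8, sg u k * (sg u i * sg u j) = 0 := by
  fin_cases i <;> fin_cases j <;> fin_cases k <;>
    first
    | exact absurd rfl hij
    | exact absurd rfl hik
    | exact absurd rfl hjk
    | simp [Fin.sum_univ_eight, sg, bit, sb, Nat.testBit, Nat.shiftRight_eq_div_pow]

private lemma H2_sq (u : Fin 8) (l : Fin 3) : sg u l * sg u l = 1 := sb_sq _

private lemma H2_abs (u : Fin 8) (l : Fin 3) : |sg u l| = 1 := abs_sb _

private lemma H2_ne (v : Fin 8) (k : Fin 3) : flip v k ≠ v := by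
  revert v k; decide

theorem range1 {x : Fin 8 → E} (hb : Bd x) (v : Fin 8) {i j k : Fin 3} (hij : i ≠ j)
    (hik : i ≠ k) (hjk : j ≠ k) {ti tj θ : ℝ} (h : |ti| + |tj| + |θ| ≤ 1) {w : E}
    (hw : w = ctr x + ti • A2 x k i + tj • A2 x k j + θ • A3 x k i j
      - (1/2 : ℝ) • (x v + x (flip v k))) :
    |w k| ≤ 3/10 ∧ ∀ l, l ≠ k → 4/5 ≤ - sg v l * w l ∧ - sg v l * w l ≤ 7/5 := by
  classical
  set W : Fin 8 → ℝ := fun u =>
    1/8 * (1 + sg u k * (ti * sg u i + tj * sg u j + θ * (sg u i * sg u j))) with hW
  have hwl : ∀ l, w l = ∑ u, W u * x u l - 1/2 * (x v l + x (flip v k) l) := by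
    intro l
    have e1 : ∑ u, W u * x u l = 1/8 * ∑ u, x u l + ti * (1/8 * ∑ u, sg u k * sg u i * x u l)
        + tj * (1/8 * ∑ u, sg u k * sg u j * x u l)
        + θ * (1/8 * ∑ u, sg u k * sg u i * sg u j * x u l) := by
      simp only [Finset.mul_sum, ← Finset.sum_add_distrib]
      refine Finset.sum_congr rfl fun u _ => ?_
      rw [hW]
      ring
    rw [e1, hw]
    simp only [Pi.add_apply, Pi.sub_apply, Pi.smul_apply, smul_eq_mul, ctr, A2, A3,
      Finset.sum_apply]
  -- nonnegative weights
  have hW0 : ∀ u, 0 ≤ W u := by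
    intro u
    have h1 : |sg u k * (ti * sg u i + tj * sg u j + θ * (sg u i * sg u j))| ≤ 1 := by
      rw [abs_mul, H2_abs, one_mul]
      refine le_trans ?_ h
      refine (abs_add_le _ _).trans (add_le_add ((abs_add_le _ _).trans (add_le_add ?_ ?_)) ?_)
      · rw [abs_mul, H2_abs, mul_one]
      · rw [abs_mul, H2_abs, mul_one]
      · rw [abs_mul, abs_mul, H2_abs, H2_abs, mul_one, mul_one]
    have h2 := (abs_le.1 h1).1
    rw [hW]
    show 0 ≤ 1/8 * (1 + sg u k * (ti * sg u i + tj * sg u j + θ * (sg u i * sg u j)))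
    linarith
  -- total weight
  have hW1 : ∑ u, W u = 1 := by
    have e1 : ∑ u, W u = 1/8 * ∑ u : Fin 8, (1 : ℝ) + ti * (1/8 * ∑ u : Fin 8, sg u k * sg u i)
        + tj * (1/8 * ∑ u : Fin 8, sg u k * sg u j)
        + θ * (1/8 * ∑ u : Fin 8, sg u k * (sg u i * sg u j)) := by
      simp only [Finset.mul_sum, ← Finset.sum_add_distrib]
      refine Finset.sum_congr rfl fun u _ => ?_
      rw [hW]
      ring
    rw [e1, H2_s2 hik.symm, H2_s2 hjk.symm, H2_s3 hij hik hjk]
    simp
  have hWl : ∀ l, ∑ u, sg u l * W u = 0 := by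
    intro l
    have e1 : ∑ u, sg u l * W u = 1/8 * ∑ u : Fin 8, sg u l
        + ti * (1/8 * ∑ u : Fin 8, sg u l * (sg u k * sg u i))
        + tj * (1/8 * ∑ u : Fin 8, sg u l * (sg u k * sg u j))
        + θ * (1/8 * ∑ u : Fin 8, sg u l * (sg u k * (sg u i * sg u j))) := by
      simp only [Finset.mul_sum, ← Finset.sum_add_distrib]
      refine Finset.sum_congr rfl fun u _ => ?_
      rw [hW]
      ring
    have q : ∀ (a b : Fin 3), ∑ u : Fin 8, sg u a * (sg u a * sg u b) = 0 := by
      intro a b
      rw [← H2_s1 b]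
      refine Finset.sum_congr rfl fun u _ => ?_
      rw [← mul_assoc, H2_sq, one_mul]
    have q2 : ∀ (a b c : Fin 3), b ≠ c → ∑ u : Fin 8, sg u a * (sg u a * (sg u b * sg u c)) = 0 := by
      intro a b c hbc
      rw [← H2_s2 hbc]
      refine Finset.sum_congr rfl fun u _ => ?_
      rw [← mul_assoc, H2_sq, one_mul]
    rw [e1, H2_s1]
    rcases third hij hik hjk l with rfl | rfl | rfl
    · have t1 : ∑ u : Fin 8, sg u l * (sg u k * sg u l) = 0 := by
        rw [← q l k]; exact Finset.sum_congr rfl fun u _ => by ring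
      have t2 : ∑ u : Fin 8, sg u l * (sg u k * sg u j) = 0 := by
        rw [← H2_s3 hij hik hjk]; exact Finset.sum_congr rfl fun u _ => by ring
      have t3 : ∑ u : Fin 8, sg u l * (sg u k * (sg u l * sg u j)) = 0 := by
        rw [← q2 l k j hjk.symm]; exact Finset.sum_congr rfl fun u _ => by ring
      rw [t1, t2, t3]; ring
    · have t1 : ∑ u : Fin 8, sg u l * (sg u k * sg u i) = 0 := by
        rw [← H2_s3 hij hik hjk]; exact Finset.sum_congr rfl fun u _ => by ring
      have t2 : ∑ u : Fin 8, sg u l * (sg u k * sg u l) = 0 := by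
        rw [← q l k]; exact Finset.sum_congr rfl fun u _ => by ring
      have t3 : ∑ u : Fin 8, sg u l * (sg u k * (sg u i * sg u l)) = 0 := by
        rw [← q2 l k i hik.symm]; exact Finset.sum_congr rfl fun u _ => by ring
      rw [t1, t2, t3]; ring
    · rw [q l i, q l j, q2 l i j hij]; ring
  have hWv : W v + W (flip v k) = 1/4 := by
    rw [hW]
    show 1/8 * (1 + sg v k * (ti * sg v i + tj * sg v j + θ * (sg v i * sg v j))) +
      1/8 * (1 + sg (flip v k) k * (ti * sg (flip v k) i + tj * sg (flip v k) j
        + θ * (sg (flip v k) i * sg (flip v k) j))) = 1/4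
    rw [sg_flip_self, sg_flip_ne v hik, sg_flip_ne v hjk]
    ring
  -- the main estimate
  have key : ∀ l, |(- sg v l * w l) - 11/10 * (1/2 + 1/2 * (sg v l * sg (flip v k) l))| ≤ 3/10 := by
    intro l
    set y : Fin 8 → ℝ := fun u => sg u l * x u l - 11/10 with hy
    have hy1 : ∀ u, |y u| ≤ 1/5 := by
      intro u
      have := hb u l
      rw [abs_le, hy]
      constructor <;> simp only <;> linarith [this.1, this.2]
    have hxy : ∀ u, x u l = sg u l * (11/10 + y u) := by
      intro u
      have := H2_sq u l
      rw [hy]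
      simp only
      linear_combination (- x u l) * this
    set c : Fin 8 → ℝ := fun u => (- (sg v l * sg u l * W u) + (if u = v then 1/2 else 0))
      + (if u = flip v k then 1/2 * (sg v l * sg (flip v k) l) else 0) with hc
    have hcsum : (- sg v l * w l) - 11/10 * (1/2 + 1/2 * (sg v l * sg (flip v k) l))
        = ∑ u, c u * y u := by
      have e1 : ∑ u, c u * y u = - sg v l * ∑ u, sg u l * W u * y u + 1/2 * y v
          + 1/2 * (sg v l * sg (flip v k) l) * y (flip v k) := by
        have : ∀ u, c u * y u = - sg v l * (sg u l * W u * y u) + (if u = v then 1/2 * y u else 0)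
            + (if u = flip v k then 1/2 * (sg v l * sg (flip v k) l) * y u else 0) := by
          intro u
          rw [hc]
          simp only
          split_ifs <;> ring
        rw [Finset.sum_congr rfl fun u _ => this u, Finset.sum_add_distrib,
          Finset.sum_add_distrib, Finset.sum_ite_eq' Finset.univ v,
          Finset.sum_ite_eq' Finset.univ (flip v k), if_pos (Finset.mem_univ _),
          if_pos (Finset.mem_univ _), Finset.mul_sum]
      have e2 : ∑ u, W u * x u l = ∑ u, sg u l * W u * y u := by
        have : ∀ u, W u * x u l = 11/10 * (sg u l * W u) + sg u l * W u * y u := by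
          intro u
          rw [hxy u]; ring
        rw [Finset.sum_congr rfl fun u _ => this u, Finset.sum_add_distrib, ← Finset.mul_sum,
          hWl l]
        ring
      rw [e1, hwl l, e2, hxy v, hxy (flip v k)]
      have hs := H2_sq v l
      linear_combination (1/2 * (11/10 + y v)) * hs
    rw [hcsum]
    have hcabs : ∀ u, |c u| = (W u + (if u = v then 1/2 - 2 * W v else 0))
        + (if u = flip v k then 1/2 - 2 * W (flip v k) else 0) := by
      intro u
      have hne := H2_ne v k
      by_cases h1 : u = v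
      · subst h1
        rw [hc]
        simp only [if_true, if_neg hne.symm, add_zero]
        rw [H2_sq, one_mul, abs_of_nonneg]
        · ring
        · linarith [hW0 (flip u k)]
      · by_cases h2 : u = flip v k
        · subst h2
          rw [hc]
          simp only [if_neg h1, if_true, add_zero]
          rw [show -(sg v l * sg (flip v k) l * W (flip v k)) + 1/2 * (sg v l * sg (flip v k) l)
            = (sg v l * sg (flip v k) l) * (1/2 - W (flip v k)) by ring, abs_mul, abs_mul,
            H2_abs, H2_abs, one_mul, one_mul, abs_of_nonneg]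
          · ring
          · linarith [hW0 v]
        · rw [hc]
          simp only [if_neg h1, if_neg h2, add_zero]
          rw [abs_neg, abs_mul, abs_mul, H2_abs, H2_abs, one_mul, one_mul, abs_of_nonneg (hW0 u)]
    calc |∑ u, c u * y u| ≤ ∑ u, |c u * y u| := Finset.abs_sum_le_sum_abs _ _
      _ ≤ ∑ u, |c u| * (1/5) := by
          refine Finset.sum_le_sum fun u _ => ?_
          rw [abs_mul]
          exact mul_le_mul_of_nonneg_left (hy1 u) (abs_nonneg _)
      _ = 3/10 := by
          rw [← Finset.sum_mul, Finset.sum_congr rfl fun u _ => hcabs u, Finset.sum_add_distrib,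
            Finset.sum_add_distrib, Finset.sum_ite_eq' Finset.univ v,
            Finset.sum_ite_eq' Finset.univ (flip v k), if_pos (Finset.mem_univ _),
            if_pos (Finset.mem_univ _), hW1]
          linarith
  constructor
  · have hk := key k
    rw [sg_flip_self] at hk
    have hs := H2_sq v k
    have e : - sg v k * w k - 11/10 * (1/2 + 1/2 * (sg v k * - sg v k)) = - sg v k * w k := by
      linear_combination (11/20) * hs
    rw [e, abs_mul, abs_neg, H2_abs, one_mul] at hk
    exact hk
  · intro l hl
    have hk := key l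
    rw [sg_flip_ne v hl, H2_sq, abs_le] at hk
    constructor <;> linarith [hk.1, hk.2]

end Pool.Agent.Lib.MP_5e7226_co.L7
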