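import Pool.Agent.Lib.MP_5e7226_co.L7.Defs

/-!
# The parallelepiped with the vertices `x v` is contained in `L`

The point `ctr x + ∑ l, t l • eb x l` is the convex combination of the `x v` with the weights
`∏ l, (1/2 + sg v l * t l)` (nonnegative, sum `1`; `∑ v, (∏ l, (1/2 + sg v l * t l)) * sg v k = 2 t k`,
all by `Fin.sum_univ_eight`, `Fin.prod_univ_three`, `ring`). `Convex.sum_mem`.
-/

set_option autoImplicit false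

open Set Filter Topology

namespace Pool.Agent.Lib.MP_5e7226_co.L7

open GB

private theorem Q1_tab : (sg 0 0 = 1 ∧ sg 0 1 = 1 ∧ sg 0 2 = 1) ∧ (sg 1 0 = -1 ∧ sg 1 1 = 1 ∧ sg 1 2 = 1) ∧
    (sg 2 0 = 1 ∧ sg 2 1 = -1 ∧ sg 2 2 = 1) ∧ (sg 3 0 = -1 ∧ sg 3 1 = -1 ∧ sg 3 2 = 1) ∧
    (sg 4 0 = 1 ∧ sg 4 1 = 1 ∧ sg 4 2 = -1) ∧ (sg 5 0 = -1 ∧ sg 5 1 = 1 ∧ sg 5 2 = -1) ∧
    (sg 6 0 = 1 ∧ sg 6 1 = -1 ∧ sg 6 2 = -1) ∧ (sg 7 0 = -1 ∧ sg 7 1 = -1 ∧ sg 7 2 = -1) := by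
  have hT : ∀ b : Bool, b = true → sb b = -1 := fun b h => by rw [h]; simp [sb]
  have hF : ∀ b : Bool, b = false → sb b = 1 := fun b h => by rw [h]; simp [sb]
  refine ⟨⟨?_, ?_, ?_⟩, ⟨?_, ?_, ?_⟩, ⟨?_, ?_, ?_⟩, ⟨?_, ?_, ?_⟩, ⟨?_, ?_, ?_⟩, ⟨?_, ?_, ?_⟩,
    ⟨?_, ?_, ?_⟩, ⟨?_, ?_, ?_⟩⟩ <;> first | exact hT _ (by decide) | exact hF _ (by decide)

private theorem Q1_one (t : Fin 3 → ℝ) : ∑ v : Fin 8, ∏ l, (1/2 + sg v l * t l) = 1 := by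
  obtain ⟨⟨a0, a1, a2⟩, ⟨b0, b1, b2⟩, ⟨c0, c1, c2⟩, ⟨d0, d1, d2⟩, ⟨e0, e1, e2⟩, ⟨f0, f1, f2⟩,
    ⟨g0, g1, g2⟩, ⟨h0, h1, h2⟩⟩ := Q1_tab
  simp only [Fin.sum_univ_eight, Fin.prod_univ_three, a0, a1, a2, b0, b1, b2, c0, c1, c2, d0, d1, d2,
    e0, e1, e2, f0, f1, f2, g0, g1, g2, h0, h1, h2]
  ring

private theorem Q1_two (t : Fin 3 → ℝ) (k : Fin 3) :
    ∑ v : Fin 8, (∏ l, (1/2 + sg v l * t l)) * sg v k = 2 * t k := by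
  obtain ⟨⟨a0, a1, a2⟩, ⟨b0, b1, b2⟩, ⟨c0, c1, c2⟩, ⟨d0, d1, d2⟩, ⟨e0, e1, e2⟩, ⟨f0, f1, f2⟩,
    ⟨g0, g1, g2⟩, ⟨h0, h1, h2⟩⟩ := Q1_tab
  fin_cases k <;>
  simp only [Fin.sum_univ_eight, Fin.prod_univ_three, a0, a1, a2, b0, b1, b2, c0, c1, c2, d0, d1, d2,
    e0, e1, e2, f0, f1, f2, g0, g1, g2, h0, h1, h2, Fin.zero_eta, Fin.mk_one, Fin.reduceFinMk] <;>
  ring

theorem box_mem {L : Set E} (hc : Convex ℝ L) {x : Fin 8 → E} (hx : ∀ v, x v ∈ L)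
    (hp : ∀ v, x v = ctr x + ∑ l, (1/2 * sg v l) • eb x l) {t : Fin 3 → ℝ}
    (ht : ∀ l, |t l| ≤ 1/2) : ctr x + ∑ l, t l • eb x l ∈ L := by
  have hw : ∀ v : Fin 8, 0 ≤ ∏ l, (1/2 + sg v l * t l) := by
    intro v
    apply Finset.prod_nonneg
    intro l _
    have h1 := abs_le.1 (ht l)
    rcases sb_or (bit v l) with h | h
    · have h' : sg v l = 1 := h
      rw [h']
      linarith [h1.1]
    · have h' : sg v l = -1 := h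
      rw [h']
      linarith [h1.2]
  have key : ∑ v : Fin 8, (∏ l, (1/2 + sg v l * t l)) • x v ∈ L :=
    hc.sum_mem (fun v _ => hw v) (Q1_one t) (fun v _ => hx v)
  have e : ∑ v : Fin 8, (∏ l, (1/2 + sg v l * t l)) • x v = ctr x + ∑ l, t l • eb x l := by
    have e1 : ∀ v : Fin 8, (∏ l, (1/2 + sg v l * t l)) • x v =
        (∏ l, (1/2 + sg v l * t l)) • ctr x +
          ∑ k, (1/2 * ((∏ l, (1/2 + sg v l * t l)) * sg v k)) • eb x k := by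
      intro v
      conv_lhs => rw [hp v]
      rw [smul_add, Finset.smul_sum]
      congr 1
      apply Finset.sum_congr rfl
      intro k _
      rw [smul_smul]
      congr 1
      ring
    rw [Finset.sum_congr rfl (fun v _ => e1 v), Finset.sum_add_distrib, ← Finset.sum_smul, Q1_one,
      one_smul, Finset.sum_comm]
    congr 1
    apply Finset.sum_congr rfl
    intro k _
    rw [← Finset.sum_smul, ← Finset.mul_sum, Q1_two]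
    congr 1
    ring
  rwa [e] at key

end Pool.Agent.Lib.MP_5e7226_co.L7
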