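import Pool.Agent.Lib.MP_5e7226_co.L7.N
import Pool.Agent.Lib.MP_5e7226_co.L7.H2
import Pool.Agent.Lib.MP_5e7226_co.L7.Q1

/-!
# The last step: `L` is the parallelepiped

Let the eight dark points be `x v = ctr x + ∑ l, (1/2 * sg v l) • eb x l`, `L` not illuminated by 7
directions. Then `|φ (y - ctr x) l| ≤ 1/2` for all `y ∈ L` and all `l`.

Proof. Suppose `s * φ (y - ctr x) k > 1/2` for a sign `s = ±1`; let `β = φ (y - ctr x)`. For small
`η > 0` let `t l = - (η/(1-η)) β l` for `l ≠ k` (so `|t l| ≤ 1/2`), `t k = s/2`, and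
`z = ctr x + ∑ t l • eb x l`; the box `{ctr x + ∑ t l • eb x l : |t l| ≤ 1/2}` is contained in `L`, since
its points are convex combinations of the `x v` (`box_mem`). Let
`q = (1-η) z + η y ∈ L`: `q = ctr x + (s/2 + η (β k - s/2)) • eb x k`; let `q' = ctr x - (s/2) • eb x k ∈ L`.
Choose the edge `v` with `sg v k = -1` (any), `x (flip v k) - x v = eb x k`. If `s = 1` take `p = q'`,
`p' = q`, if `s = -1` take `p = q`, `p' = q'`: `p' - p = (1 + η (s β k - 1/2)) • eb x k`, a factor
`> 1`. `(1/2)(p + p' - x v - x (flip v k)) = w₀ + (η/2)(β k - s/2) • eb x k` with the vector `w₀` of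
`range1` for `ti = tj = θ = 0` (`i, j` the two other axes), and the second term is as small as we want
(choose `η` small; `|eb x k l| ≤ 13/5`). `range1` has slack to the bounds in `no_merge`
(`3/10 < 301/1000`, `799/1000 < 4/5`, `7/5 < 1401/1000`): contradiction.
-/

set_option autoImplicit false

open Set Filter Topology

namespace Pool.Agent.Lib.MP_5e7226_co.L7

open GB

private theorem Q_edge {x : Fin 8 → E} (hp : ∀ v, x v = ctr x + ∑ l, (1/2 * sg v l) • eb x l)
    {v : Fin 8} {k : Fin 3} (hv : sg v k = -1) : x (flip v k) - x v = eb x k := by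
  obtain ⟨i, j, hij, hik, hjk⟩ : ∃ i j : Fin 3, i ≠ j ∧ i ≠ k ∧ j ≠ k := by
    have h : ∀ k : Fin 3, ∃ i j : Fin 3, i ≠ j ∧ i ≠ k ∧ j ≠ k := by decide
    exact h k
  have h1 := hp v
  have h2 := hp (flip v k)
  rw [sum3 hij hik hjk] at h1 h2
  rw [sg_flip_self, sg_flip_ne v hik, sg_flip_ne v hjk] at h2
  funext n
  have e1 := congrFun h1 n
  have e2 := congrFun h2 n
  simp only [Pi.add_apply, Pi.smul_apply, smul_eq_mul, Pi.sub_apply] at e1 e2 ⊢
  rw [hv] at e1 e2
  linear_combination e2 - e1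

private theorem Q_small {x : Fin 8 → E} (hb : Bd x) (k l : Fin 3) : |eb x k l| ≤ 13/5 := by
  by_cases h : l = k
  · subst h
    have := eb_diag hb l
    rw [abs_le]
    constructor <;> linarith
  · have := eb_off hb (i := l) (j := k) h
    linarith

/-- the two points `p, p'` -/
private theorem Q_main {L : Set E} (hS : Sand L) (hn : ¬ Illum L 7) {x : Fin 8 → E} (hb : Bd x)
    (hd : ∀ v, Dark L v (x v)) (hp : ∀ v, x v = ctr x + ∑ l, (1/2 * sg v l) • eb x l)
    {k : Fin 3} {p p' : E} (hpL : p ∈ L) (hpL' : p' ∈ L) {lam μ : ℝ} (hl : 1 < lam)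
    (h : p' - p = lam • eb x k) (h' : p + p' = (2 : ℝ) • ctr x + μ • eb x k)
    (hμ : |μ| ≤ 1/10000) : False := by
  obtain ⟨v, hv⟩ : ∃ v : Fin 8, sg v k = -1 := by
    rcases sb_or (bit 0 k) with h1 | h1
    · exact ⟨flip 0 k, by rw [sg_flip_self]; show -(sb (bit 0 k)) = -1; rw [h1]⟩
    · exact ⟨0, h1⟩
  obtain ⟨i, j, hij, hik, hjk⟩ : ∃ i j : Fin 3, i ≠ j ∧ i ≠ k ∧ j ≠ k := by
    have h : ∀ k : Fin 3, ∃ i j : Fin 3, i ≠ j ∧ i ≠ k ∧ j ≠ k := by decide
    exact h k
  have hedge := Q_edge hp hv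
  obtain ⟨hr1, hr2⟩ := range1 hb v hij hik hjk (ti := 0) (tj := 0) (θ := 0) (by norm_num)
    (w := ctr x + (0 : ℝ) • A2 x k i + (0 : ℝ) • A2 x k j + (0 : ℝ) • A3 x k i j
      - (1/2 : ℝ) • (x v + x (flip v k))) rfl
  have hw : ∀ n, (1/2) * (p n + p' n - x v n - x (flip v k) n)
      = (ctr x + (0 : ℝ) • A2 x k i + (0 : ℝ) • A2 x k j + (0 : ℝ) • A3 x k i j
      - (1/2 : ℝ) • (x v + x (flip v k))) n + (μ / 2) * eb x k n := by
    intro n
    have e := congrFun h' n
    simp only [Pi.add_apply, Pi.smul_apply, smul_eq_mul, Pi.sub_apply] at e ⊢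
    linear_combination (1/2) * e
  have hsm : ∀ n, |(μ / 2) * eb x k n| ≤ 1/2000 := by
    intro n
    rw [abs_mul, abs_div]
    have h1 := Q_small hb k n
    have h2 : |μ| / |(2 : ℝ)| ≤ 1/20000 := by
      rw [abs_of_pos (by norm_num : (0 : ℝ) < 2)]
      linarith
    calc |μ| / |(2 : ℝ)| * |eb x k n| ≤ (1/20000) * (13/5) :=
          mul_le_mul h2 h1 (abs_nonneg _) (by norm_num)
      _ ≤ 1/2000 := by norm_num
  refine no_merge hS hn v k (hd v) (hd (flip v k)) hpL hpL' hl (by rw [h, hedge]) ?_ ?_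
  · rw [hw k]
    have h1 := hsm k
    have h2 := abs_add_le ((ctr x + (0 : ℝ) • A2 x k i + (0 : ℝ) • A2 x k j + (0 : ℝ) • A3 x k i j
      - (1/2 : ℝ) • (x v + x (flip v k))) k) ((μ / 2) * eb x k k)
    linarith
  · intro n hnk
    rw [hw n]
    have h1 := hsm n
    have h2 := hr2 n hnk
    have h3 : |sg v n * ((μ / 2) * eb x k n)| ≤ 1/2000 := by
      rw [abs_mul]
      have : |sg v n| = 1 := abs_sb _
      rw [this, one_mul]
      exact h1
    rw [abs_le] at h3
    constructor
    · rw [mul_add]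
      have h4 := h2.1
      have h5 := h3.2
      linarith
    · rw [mul_add]
      have h4 := h2.2
      have h5 := h3.1
      linarith

theorem last_step {L : Set E} (hS : Sand L) (hn : ¬ Illum L 7) {x : Fin 8 → E} (hb : Bd x)
    (hd : ∀ v, Dark L v (x v)) {φ : E →ₗ[ℝ] E} (hφ : Dual x φ)
    (hp : ∀ v, x v = ctr x + ∑ l, (1/2 * sg v l) • eb x l) {y : E} (hy : y ∈ L) (l : Fin 3) :
    |φ (y - ctr x) l| ≤ 1/2 := by
  by_contra hcon
  rw [not_le] at hcon
  set β := φ (y - ctr x) with hβ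
  have hexp : y = ctr x + ∑ m, β m • eb x m := by
    rw [← hφ.expand (y - ctr x)]
    abel
  obtain ⟨i, j, hij, hil, hjl⟩ : ∃ i j : Fin 3, i ≠ j ∧ i ≠ l ∧ j ≠ l := by
    have h : ∀ k : Fin 3, ∃ i j : Fin 3, i ≠ j ∧ i ≠ k ∧ j ≠ k := by decide
    exact h l
  have hxL : ∀ v, x v ∈ L := fun v => (hd v).mem
  obtain ⟨s, hs, hsb⟩ : ∃ s : ℝ, (s = 1 ∨ s = -1) ∧ 1/2 < s * β l := by
    rcases le_total 0 (β l) with h | h
    · refine ⟨1, Or.inl rfl, ?_⟩
      rw [abs_of_nonneg h] at hcon
      linarith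
    · refine ⟨-1, Or.inr rfl, ?_⟩
      rw [abs_of_nonpos h] at hcon
      linarith
  have hsabs : |s / 2| ≤ 1/2 := by
    rcases hs with rfl | rfl <;> norm_num [abs_le]
  set B : ℝ := 1 + ∑ m, |β m| with hB
  have hBm : ∀ m, |β m| ≤ B - 1 := by
    intro m
    have := Finset.single_le_sum (f := fun m => |β m|) (fun m _ => abs_nonneg _)
      (Finset.mem_univ m)
    linarith
  have hB1 : 1 ≤ B := by
    have := hBm l
    have := abs_nonneg (β l)
    linarith
  set η : ℝ := 1 / (10000 * B) with hη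
  have hη0 : 0 < η := by positivity
  have hηB : η * B = 1/10000 := by
    rw [hη]
    field_simp
  have hη1 : η ≤ 1/10000 := by nlinarith
  have hηm : ∀ m, η * |β m| ≤ 1/10000 := by
    intro m
    have h1 := hBm m
    nlinarith
  have h1η : 0 < 1 - η := by linarith
  set t : Fin 3 → ℝ := fun m => if m = l then s / 2 else -(η * β m) / (1 - η) with ht
  have htl : t l = s / 2 := by rw [ht]; simp
  have hto : ∀ m, m ≠ l → (1 - η) * t m = - (η * β m) := by
    intro m hm
    rw [ht]
    simp only [hm, if_false]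
    field_simp
  have ht2 : ∀ m, |t m| ≤ 1/2 := by
    intro m
    by_cases hm : m = l
    · rw [hm, htl]
      exact hsabs
    · have h1 : |(1 - η) * t m| ≤ 1/10000 := by
        rw [hto m hm, abs_neg, abs_mul, abs_of_pos hη0]
        exact hηm m
      rw [abs_mul, abs_of_pos h1η] at h1
      have h2 := abs_nonneg (t m)
      nlinarith
  have hz := box_mem hS.conv hxL hp ht2
  have hq := hS.conv hz hy h1η.le hη0.le (by ring)
  have hq' := box_mem hS.conv hxL hp (t := fun m => if m = l then -(s / 2) else 0) (by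
    intro m
    by_cases hm : m = l
    · simp only [hm, if_true]
      rw [abs_neg]
      exact hsabs
    · simp only [hm, if_false, abs_zero]
      norm_num)
  set q : E := (1 - η) • (ctr x + ∑ l, t l • eb x l) + η • y with hqd
  set q' : E := ctr x + ∑ m, (if m = l then -(s / 2) else 0) • eb x m with hqd'
  have eq1 : q = ctr x + (s / 2 + η * (β l - s / 2)) • eb x l := by
    rw [hqd, hexp, sum3 hij hil hjl, sum3 hij hil hjl]
    funext n
    simp only [Pi.add_apply, Pi.smul_apply, smul_eq_mul]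
    linear_combination (eb x i n) * hto i hil + (eb x j n) * hto j hjl
      + ((1 - η) * eb x l n) * htl
  have eq2 : q' = ctr x - (s / 2) • eb x l := by
    rw [hqd', sum3 hij hil hjl]
    funext n
    simp only [Pi.add_apply, Pi.smul_apply, smul_eq_mul, Pi.sub_apply, hil, hjl, if_false,
      if_true]
    ring
  have hμ : |η * (β l - s / 2)| ≤ 1/10000 := by
    rw [abs_mul, abs_of_pos hη0]
    have h1 : |β l - s / 2| ≤ B := by
      have := abs_sub (β l) (s / 2)
      have := hBm l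
      linarith
    calc η * |β l - s / 2| ≤ η * B := mul_le_mul_of_nonneg_left h1 hη0.le
      _ = 1/10000 := hηB
      _ ≤ 1/10000 := le_refl _
  have hsum : q + q' = (2 : ℝ) • ctr x + (η * (β l - s / 2)) • eb x l := by
    rw [eq1, eq2]
    funext n
    simp only [Pi.add_apply, Pi.smul_apply, smul_eq_mul, Pi.sub_apply]
    ring
  rcases hs with rfl | rfl
  · refine Q_main hS hn hb hd hp hq' hq (lam := 1 + η * (β l - 1 / 2)) ?_ ?_
      (by rw [add_comm]; exact hsum) hμ
    · nlinarith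
    · rw [eq1, eq2]
      funext n
      simp only [Pi.add_apply, Pi.smul_apply, smul_eq_mul, Pi.sub_apply]
      ring
  · refine Q_main hS hn hb hd hp hq hq' (lam := 1 - η * (β l + 1 / 2)) ?_ ?_ hsum hμ
    · nlinarith
    · rw [eq1, eq2]
      funext n
      simp only [Pi.add_apply, Pi.smul_apply, smul_eq_mul, Pi.sub_apply]
      ring

end Pool.Agent.Lib.MP_5e7226_co.L7
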