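import Pool.Agent.Lib.MP_5e7226_co.L7.S
import Pool.Agent.Lib.MP_5e7226_co.L7.P
import Pool.Agent.Lib.MP_5e7226_co.L7.Q

/-!
# The local theorem

`C ⊆ L ⊆ (13/10) C`: 7 directions illuminate `L`, or `L` is a parallelepiped.
-/

set_option autoImplicit false

open Set Filter Topology

namespace Pool.Agent.Lib.MP_5e7226_co.L7

open GB

theorem local7 {L : Set E} (hS : Sand L) : Illum L 7 ∨ IsPar L := by
  by_cases hn : Illum L 7
  · exact Or.inl hn
  right
  have hdk : ∀ v, ∃ x, Dark L v x := by
    intro v
    by_contra h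
    exact hn (illum_of_no_dark hS v (fun x hx => h ⟨x, hx⟩))
  choose x hd using hdk
  have hb := bd_of_dark hS hd
  obtain ⟨hli, φ, hφ⟩ := exists_dual hb
  have hp := vertices hφ (fun v i j k hij hik hjk hv θ hθ => star hS hn hd hφ hij hik hjk hv hθ)
  refine ⟨ctr x, fun i => (1/2 : ℝ) • eb x i, ?_, ?_⟩
  · exact hli.units_smul (fun _ => Units.mk0 (1/2 : ℝ) (by norm_num))
  · ext y
    constructor
    · intro hy
      refine ⟨fun i => 2 * φ (y - ctr x) i, fun i => ?_, ?_⟩
      · have := last_step hS hn hb hd hφ hp hy i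
        rw [abs_mul, abs_of_pos (by norm_num : (0:ℝ) < 2)]; linarith
      · have h := hφ.expand (y - ctr x)
        have h2 : y = ctr x + (y - ctr x) := by abel
        conv_lhs => rw [h2, h]
        congr 1
        refine Finset.sum_congr rfl fun i _ => ?_
        rw [smul_smul]; congr 1; ring
    · rintro ⟨t, ht, rfl⟩
      have := box_mem hS.conv (fun v => (hd v).mem) hp (t := fun i => t i / 2) (fun l => by
        rw [abs_div, abs_of_pos (by norm_num : (0:ℝ) < 2)]; linarith [ht l])
      convert this using 2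
      refine Finset.sum_congr rfl fun i _ => ?_
      rw [smul_smul]; congr 1; ring

end Pool.Agent.Lib.MP_5e7226_co.L7
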