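import Pool.Agent.Lib.MP_5e7226_co.L7.F2

/-!
# The coordinates of an edge vector

Let `sg v k = -1`, `e = x (flip v k) - x v`, `α = φ e`, `T = |α i| + |α j|`, where `i, j` are the other
axes, and suppose `α k ≤ 101/100`. Then `4/7 ≤ α k` and `T ≤ 4/7 + (2/7) α k`.

Proof. With `z = sg * x ∈ [9/10, 13/10]`: `e k = z + z' ∈ [9/5, 13/5]`,
`|e l| = |z - z'| ≤ 2/5` for `l ≠ k`. `eb x k l` is the mean of the `l`-th coordinates of the four
edge vectors of axis `k`, one of which is `e`; all four have absolute value at most `2/5`.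
By `Dual.expand`: `e l = ∑ α m * eb x m l`.

First `0 ≤ α k`: suppose `α k < 0`. For `l ≠ k`, `|e l - α k * eb x k l| ≤ (2/5)(1 + |α k|)` and
`e l - α k * eb x k l = α l * eb x l l + α l' * eb x l' l` (`l'` the third axis), so (add the two
inequalities) `(9/5 - 2/5) T ≤ 2 (2/5)(1 + |α k|)`, `T ≤ (4/7)(1 + |α k|)`; and
`9/5 ≤ e k ≤ - |α k| 9/5 + (2/5) T`: contradiction.

Then, as `0 ≤ α k ≤ 101/100`: `e l - α k * eb x k l = (1 - α k / 4) e l - (α k / 4) (sum of the l-th
coordinates of the three other edge vectors)`, absolute value at most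
`(2/5)((1 - α k/4) + 3 α k/4) = (2/5)(1 + α k / 2)`, so `(7/5) T ≤ (4/5)(1 + α k/2)`, that is
`T ≤ 4/7 + (2/7) α k`. Finally `9/5 ≤ e k ≤ 13/5 * α k + (2/5) T` gives `α k ≥ 55/95 ≥ 4/7`.

(The four edge vectors of axis `k` are `x (flip u k) - x u` for the four `u` with `sg u k = -1`; the
sum over `Fin 8` in `eb` can be written out by `Fin.sum_univ_eight` after `fin_cases`-type case
distinctions on `v` and `k`; or prove once and for all
`4 * eb x k l = e l + (three differences, each of absolute value ≤ 2/5)`.)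
-/

set_option autoImplicit false

open Set Filter Topology

namespace Pool.Agent.Lib.MP_5e7226_co.L7

open GB

private theorem G_pair {x : Fin 8 → E} (hb : Bd x) (u : Fin 8) {k l : Fin 3} (h : l ≠ k) :
    |x (flip u k) l - x u l| ≤ 2/5 := by
  have h1 := hb u l
  have h2 := hb (flip u k) l
  rw [sg_flip_ne u h] at h2
  rcases isSign_sg u l with h3 | h3
  · rw [h3] at h1 h2
    rw [abs_le]
    constructor <;> linarith [h1.1, h1.2, h2.1, h2.2]
  · rw [h3] at h1 h2
    rw [abs_le]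
    constructor <;> linarith [h1.1, h1.2, h2.1, h2.2]

private theorem G_sum (x : Fin 8 → E) (k l : Fin 3) : 4 * eb x k l = ∑ u, sg u k * x u l := by
  unfold eb
  simp only [Pi.smul_apply, Finset.sum_apply, smul_eq_mul]
  ring

private theorem G_three {x : Fin 8 → E} (hb : Bd x) {v : Fin 8} {k l : Fin 3} (h : l ≠ k) (hv : sg v k = -1) :
    |4 * eb x k l - (x (flip v k) l - x v l)| ≤ 6/5 := by
  rw [G_sum, Fin.sum_univ_eight]
  have hp := fun u => abs_le.mp (G_pair hb u h)
  rw [abs_le]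
  fin_cases k
  · have p1 := hp 1
    have p3 := hp 3
    have p5 := hp 5
    have p7 := hp 7
    have f1 : flip 1 0 = 0 := by decide
    have f3 : flip 3 0 = 2 := by decide
    have f5 : flip 5 0 = 4 := by decide
    have f7 : flip 7 0 = 6 := by decide
    simp only [Fin.zero_eta] at p1 p3 p5 p7 hv ⊢
    rw [f1] at p1
    rw [f3] at p3
    rw [f5] at p5
    rw [f7] at p7
    have b0 : bit 0 0 = false := by decide
    have s0 : sg 0 0 = 1 := by simp [sg, b0, sb]
    have b1 : bit 1 0 = true := by decide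
    have s1 : sg 1 0 = -1 := by simp [sg, b1, sb]
    have b2 : bit 2 0 = false := by decide
    have s2 : sg 2 0 = 1 := by simp [sg, b2, sb]
    have b3 : bit 3 0 = true := by decide
    have s3 : sg 3 0 = -1 := by simp [sg, b3, sb]
    have b4 : bit 4 0 = false := by decide
    have s4 : sg 4 0 = 1 := by simp [sg, b4, sb]
    have b5 : bit 5 0 = true := by decide
    have s5 : sg 5 0 = -1 := by simp [sg, b5, sb]
    have b6 : bit 6 0 = false := by decide
    have s6 : sg 6 0 = 1 := by simp [sg, b6, sb]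
    have b7 : bit 7 0 = true := by decide
    have s7 : sg 7 0 = -1 := by simp [sg, b7, sb]
    rw [s0, s1, s2, s3, s4, s5, s6, s7]
    fin_cases v
    · exfalso
      have hv2 : sg 0 0 = -1 := hv
      rw [s0] at hv2
      norm_num at hv2
    · show -(6/5) ≤ _ - (x (flip 1 0) l - x 1 l) ∧ _ - (x (flip 1 0) l - x 1 l) ≤ 6/5
      rw [f1]
      constructor <;> linarith [p1.1, p1.2, p3.1, p3.2, p5.1, p5.2, p7.1, p7.2]
    · exfalso
      have hv2 : sg 2 0 = -1 := hv
      rw [s2] at hv2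
      norm_num at hv2
    · show -(6/5) ≤ _ - (x (flip 3 0) l - x 3 l) ∧ _ - (x (flip 3 0) l - x 3 l) ≤ 6/5
      rw [f3]
      constructor <;> linarith [p1.1, p1.2, p3.1, p3.2, p5.1, p5.2, p7.1, p7.2]
    · exfalso
      have hv2 : sg 4 0 = -1 := hv
      rw [s4] at hv2
      norm_num at hv2
    · show -(6/5) ≤ _ - (x (flip 5 0) l - x 5 l) ∧ _ - (x (flip 5 0) l - x 5 l) ≤ 6/5
      rw [f5]
      constructor <;> linarith [p1.1, p1.2, p3.1, p3.2, p5.1, p5.2, p7.1, p7.2]
    · exfalso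
      have hv2 : sg 6 0 = -1 := hv
      rw [s6] at hv2
      norm_num at hv2
    · show -(6/5) ≤ _ - (x (flip 7 0) l - x 7 l) ∧ _ - (x (flip 7 0) l - x 7 l) ≤ 6/5
      rw [f7]
      constructor <;> linarith [p1.1, p1.2, p3.1, p3.2, p5.1, p5.2, p7.1, p7.2]
  · have p2 := hp 2
    have p3 := hp 3
    have p6 := hp 6
    have p7 := hp 7
    have f2 : flip 2 1 = 0 := by decide
    have f3 : flip 3 1 = 1 := by decide
    have f6 : flip 6 1 = 4 := by decide
    have f7 : flip 7 1 = 5 := by decide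
    simp only [Fin.mk_one] at p2 p3 p6 p7 hv ⊢
    rw [f2] at p2
    rw [f3] at p3
    rw [f6] at p6
    rw [f7] at p7
    have b0 : bit 0 1 = false := by decide
    have s0 : sg 0 1 = 1 := by simp [sg, b0, sb]
    have b1 : bit 1 1 = false := by decide
    have s1 : sg 1 1 = 1 := by simp [sg, b1, sb]
    have b2 : bit 2 1 = true := by decide
    have s2 : sg 2 1 = -1 := by simp [sg, b2, sb]
    have b3 : bit 3 1 = true := by decide
    have s3 : sg 3 1 = -1 := by simp [sg, b3, sb]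
    have b4 : bit 4 1 = false := by decide
    have s4 : sg 4 1 = 1 := by simp [sg, b4, sb]
    have b5 : bit 5 1 = false := by decide
    have s5 : sg 5 1 = 1 := by simp [sg, b5, sb]
    have b6 : bit 6 1 = true := by decide
    have s6 : sg 6 1 = -1 := by simp [sg, b6, sb]
    have b7 : bit 7 1 = true := by decide
    have s7 : sg 7 1 = -1 := by simp [sg, b7, sb]
    rw [s0, s1, s2, s3, s4, s5, s6, s7]
    fin_cases v
    · exfalso
      have hv2 : sg 0 1 = -1 := hv
      rw [s0] at hv2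
      norm_num at hv2
    · exfalso
      have hv2 : sg 1 1 = -1 := hv
      rw [s1] at hv2
      norm_num at hv2
    · show -(6/5) ≤ _ - (x (flip 2 1) l - x 2 l) ∧ _ - (x (flip 2 1) l - x 2 l) ≤ 6/5
      rw [f2]
      constructor <;> linarith [p2.1, p2.2, p3.1, p3.2, p6.1, p6.2, p7.1, p7.2]
    · show -(6/5) ≤ _ - (x (flip 3 1) l - x 3 l) ∧ _ - (x (flip 3 1) l - x 3 l) ≤ 6/5
      rw [f3]
      constructor <;> linarith [p2.1, p2.2, p3.1, p3.2, p6.1, p6.2, p7.1, p7.2]
    · exfalso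
      have hv2 : sg 4 1 = -1 := hv
      rw [s4] at hv2
      norm_num at hv2
    · exfalso
      have hv2 : sg 5 1 = -1 := hv
      rw [s5] at hv2
      norm_num at hv2
    · show -(6/5) ≤ _ - (x (flip 6 1) l - x 6 l) ∧ _ - (x (flip 6 1) l - x 6 l) ≤ 6/5
      rw [f6]
      constructor <;> linarith [p2.1, p2.2, p3.1, p3.2, p6.1, p6.2, p7.1, p7.2]
    · show -(6/5) ≤ _ - (x (flip 7 1) l - x 7 l) ∧ _ - (x (flip 7 1) l - x 7 l) ≤ 6/5
      rw [f7]
      constructor <;> linarith [p2.1, p2.2, p3.1, p3.2, p6.1, p6.2, p7.1, p7.2]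
  · have p4 := hp 4
    have p5 := hp 5
    have p6 := hp 6
    have p7 := hp 7
    have f4 : flip 4 2 = 0 := by decide
    have f5 : flip 5 2 = 1 := by decide
    have f6 : flip 6 2 = 2 := by decide
    have f7 : flip 7 2 = 3 := by decide
    simp only [Fin.reduceFinMk] at p4 p5 p6 p7 hv ⊢
    rw [f4] at p4
    rw [f5] at p5
    rw [f6] at p6
    rw [f7] at p7
    have b0 : bit 0 2 = false := by decide
    have s0 : sg 0 2 = 1 := by simp [sg, b0, sb]
    have b1 : bit 1 2 = false := by decide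
    have s1 : sg 1 2 = 1 := by simp [sg, b1, sb]
    have b2 : bit 2 2 = false := by decide
    have s2 : sg 2 2 = 1 := by simp [sg, b2, sb]
    have b3 : bit 3 2 = false := by decide
    have s3 : sg 3 2 = 1 := by simp [sg, b3, sb]
    have b4 : bit 4 2 = true := by decide
    have s4 : sg 4 2 = -1 := by simp [sg, b4, sb]
    have b5 : bit 5 2 = true := by decide
    have s5 : sg 5 2 = -1 := by simp [sg, b5, sb]
    have b6 : bit 6 2 = true := by decide
    have s6 : sg 6 2 = -1 := by simp [sg, b6, sb]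
    have b7 : bit 7 2 = true := by decide
    have s7 : sg 7 2 = -1 := by simp [sg, b7, sb]
    rw [s0, s1, s2, s3, s4, s5, s6, s7]
    fin_cases v
    · exfalso
      have hv2 : sg 0 2 = -1 := hv
      rw [s0] at hv2
      norm_num at hv2
    · exfalso
      have hv2 : sg 1 2 = -1 := hv
      rw [s1] at hv2
      norm_num at hv2
    · exfalso
      have hv2 : sg 2 2 = -1 := hv
      rw [s2] at hv2
      norm_num at hv2
    · exfalso
      have hv2 : sg 3 2 = -1 := hv
      rw [s3] at hv2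
      norm_num at hv2
    · show -(6/5) ≤ _ - (x (flip 4 2) l - x 4 l) ∧ _ - (x (flip 4 2) l - x 4 l) ≤ 6/5
      rw [f4]
      constructor <;> linarith [p4.1, p4.2, p5.1, p5.2, p6.1, p6.2, p7.1, p7.2]
    · show -(6/5) ≤ _ - (x (flip 5 2) l - x 5 l) ∧ _ - (x (flip 5 2) l - x 5 l) ≤ 6/5
      rw [f5]
      constructor <;> linarith [p4.1, p4.2, p5.1, p5.2, p6.1, p6.2, p7.1, p7.2]
    · show -(6/5) ≤ _ - (x (flip 6 2) l - x 6 l) ∧ _ - (x (flip 6 2) l - x 6 l) ≤ 6/5
      rw [f6]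
      constructor <;> linarith [p4.1, p4.2, p5.1, p5.2, p6.1, p6.2, p7.1, p7.2]
    · show -(6/5) ≤ _ - (x (flip 7 2) l - x 7 l) ∧ _ - (x (flip 7 2) l - x 7 l) ≤ 6/5
      rw [f7]
      constructor <;> linarith [p4.1, p4.2, p5.1, p5.2, p6.1, p6.2, p7.1, p7.2]

private theorem G_long {x : Fin 8 → E} (hb : Bd x) {v : Fin 8} {k : Fin 3} (hv : sg v k = -1) :
    9/5 ≤ x (flip v k) k - x v k ∧ x (flip v k) k - x v k ≤ 13/5 := by
  have h1 := hb v k
  have h2 := hb (flip v k) k
  rw [sg_flip_self, hv] at h2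
  rw [hv] at h1
  constructor <;> linarith [h1.1, h1.2, h2.1, h2.2]

private theorem G_univ : ∀ i j k : Fin 3, i ≠ j → i ≠ k → j ≠ k → (Finset.univ : Finset (Fin 3)) = {i, j, k} := by
  decide

/-- two unknowns -/
private theorem G_two {a b p q r s c : ℝ} (hp : 9/5 ≤ p) (hs : 9/5 ≤ s) (hq : |q| ≤ 2/5) (hr : |r| ≤ 2/5)
    (h1 : |a * p + b * q| ≤ c) (h2 : |a * r + b * s| ≤ c) : 7/5 * (|a| + |b|) ≤ 2 * c := by
  have e1 : |a| * p ≤ |a * p + b * q| + |b| * |q| := by
    have : |a * p| ≤ |a * p + b * q| + |b * q| := by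
      have h := abs_sub_abs_le_abs_sub (a * p) (-(b * q))
      rw [abs_neg, sub_neg_eq_add] at h
      linarith
    rw [abs_mul, abs_mul, abs_of_nonneg (by linarith : 0 ≤ p)] at this
    exact this
  have e2 : |b| * s ≤ |a * r + b * s| + |a| * |r| := by
    have : |b * s| ≤ |a * r + b * s| + |a * r| := by
      have h := abs_sub_abs_le_abs_sub (b * s) (-(a * r))
      rw [abs_neg, sub_neg_eq_add, add_comm (b * s)] at h
      linarith
    rw [abs_mul, abs_mul, abs_of_nonneg (by linarith : 0 ≤ s)] at this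
    exact this
  have ha := abs_nonneg a
  have hb := abs_nonneg b
  have e3 : |a| * (9/5) ≤ |a| * p := mul_le_mul_of_nonneg_left hp ha
  have e4 : |b| * (9/5) ≤ |b| * s := mul_le_mul_of_nonneg_left hs hb
  have e5 : |b| * |q| ≤ |b| * (2/5) := mul_le_mul_of_nonneg_left hq hb
  have e6 : |a| * |r| ≤ |a| * (2/5) := mul_le_mul_of_nonneg_left hr ha
  linarith

/-- the numerical part -/
private theorem G_num {a b c p q r s P Q R e1 e2 e3 t1 t2 : ℝ} (hp : 9/5 ≤ p) (hs : 9/5 ≤ s) (hq : |q| ≤ 2/5)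
    (hr : |r| ≤ 2/5) (hP1 : 9/5 ≤ P) (hP2 : P ≤ 13/5) (hQ : |Q| ≤ 2/5) (hR : |R| ≤ 2/5)
    (ht1 : |t1| ≤ 2/5) (ht2 : |t2| ≤ 2/5) (h1 : e1 = a * p + b * q + c * t1) (h2 : e2 = a * r + b * s + c * t2)
    (h3 : e3 = a * Q + b * R + c * P) (he1 : |e1| ≤ 2/5) (he2 : |e2| ≤ 2/5) (he3 : 9/5 ≤ e3)
    (hd1 : |4 * t1 - e1| ≤ 6/5) (hd2 : |4 * t2 - e2| ≤ 6/5) (hc : c ≤ 101/100) :
    4/7 ≤ c ∧ |a| + |b| ≤ 4/7 + 2/7 * c := by
  have hab : e3 ≤ 2/5 * (|a| + |b|) + c * P := by
    have f1 : a * Q ≤ |a| * (2/5) := by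
      calc a * Q ≤ |a * Q| := le_abs_self _
        _ = |a| * |Q| := abs_mul _ _
        _ ≤ |a| * (2/5) := mul_le_mul_of_nonneg_left hQ (abs_nonneg a)
    have f2 : b * R ≤ |b| * (2/5) := by
      calc b * R ≤ |b * R| := le_abs_self _
        _ = |b| * |R| := abs_mul _ _
        _ ≤ |b| * (2/5) := mul_le_mul_of_nonneg_left hR (abs_nonneg b)
    rw [h3]
    linarith
  have hc0 : 0 ≤ c := by
    by_contra hneg
    push Not at hneg
    have g : ∀ e t : ℝ, |e| ≤ 2/5 → |t| ≤ 2/5 → |e - c * t| ≤ 2/5 * (1 - c) := by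
      intro e t he ht
      have g1 : |c * t| ≤ -c * (2/5) := by
        rw [abs_mul, abs_of_neg hneg]
        exact mul_le_mul_of_nonneg_left ht (by linarith)
      calc |e - c * t| ≤ |e| + |c * t| := abs_sub _ _
        _ ≤ 2/5 * (1 - c) := by linarith
    have g1 := g e1 t1 he1 ht1
    have g2 := g e2 t2 he2 ht2
    have i1 : e1 - c * t1 = a * p + b * q := by rw [h1]; ring
    have i2 : e2 - c * t2 = a * r + b * s := by rw [h2]; ring
    rw [i1] at g1
    rw [i2] at g2
    have hT := G_two hp hs hq hr g1 g2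
    have hcP : c * P ≤ c * (9/5) := mul_le_mul_of_nonpos_left hP1 hneg.le
    linarith
  have g : ∀ e t : ℝ, |e| ≤ 2/5 → |4 * t - e| ≤ 6/5 → |e - c * t| ≤ 2/5 * (1 + c / 2) := by
    intro e t he ht
    have i0 : e - c * t = (1 - c / 4) * e - c / 4 * (4 * t - e) := by ring
    rw [i0]
    have g1 : |(1 - c / 4) * e| ≤ (1 - c / 4) * (2/5) := by
      rw [abs_mul, abs_of_nonneg (by linarith : 0 ≤ 1 - c / 4)]
      exact mul_le_mul_of_nonneg_left he (by linarith)
    have g2 : |c / 4 * (4 * t - e)| ≤ c / 4 * (6/5) := by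
      rw [abs_mul, abs_of_nonneg (by linarith : 0 ≤ c / 4)]
      exact mul_le_mul_of_nonneg_left ht (by linarith)
    calc |(1 - c / 4) * e - c / 4 * (4 * t - e)| ≤ |(1 - c / 4) * e| + |c / 4 * (4 * t - e)| := abs_sub _ _
      _ ≤ 2/5 * (1 + c / 2) := by linarith
  have g1 := g e1 t1 he1 hd1
  have g2 := g e2 t2 he2 hd2
  have i1 : e1 - c * t1 = a * p + b * q := by rw [h1]; ring
  have i2 : e2 - c * t2 = a * r + b * s := by rw [h2]; ring
  rw [i1] at g1
  rw [i2] at g2
  have hT := G_two hp hs hq hr g1 g2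
  have hcP : c * P ≤ c * (13/5) := mul_le_mul_of_nonneg_left hP2 hc0
  constructor <;> linarith

theorem edge_coord {x : Fin 8 → E} (hb : Bd x) {φ : E →ₗ[ℝ] E} (hφ : Dual x φ) {v : Fin 8}
    {i j k : Fin 3} (hij : i ≠ j) (hik : i ≠ k) (hjk : j ≠ k) (hv : sg v k = -1)
    (hk : φ (x (flip v k) - x v) k ≤ 101/100) :
    4/7 ≤ φ (x (flip v k) - x v) k ∧
      |φ (x (flip v k) - x v) i| + |φ (x (flip v k) - x v) j| ≤
        4/7 + 2/7 * φ (x (flip v k) - x v) k := by
  have hexp := fun l => congrFun (hφ.expand (x (flip v k) - x v)) l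
  have huniv : (Finset.univ : Finset (Fin 3)) = {i, j, k} := G_univ i j k hij hik hjk
  have hsum : ∀ l, x (flip v k) l - x v l = φ (x (flip v k) - x v) i * eb x i l +
      φ (x (flip v k) - x v) j * eb x j l + φ (x (flip v k) - x v) k * eb x k l := by
    intro l
    have h := hexp l
    rw [huniv, Finset.sum_insert (by simp [hij, hik]), Finset.sum_insert (by simp [hjk]),
      Finset.sum_singleton] at h
    simp only [Pi.sub_apply, Pi.add_apply, Pi.smul_apply, smul_eq_mul] at h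
    rw [h]
    ring
  have hl := G_long hb hv
  refine G_num (eb_diag hb i).1 (eb_diag hb j).1 (eb_off hb hij) (eb_off hb hij.symm) (eb_diag hb k).1
    (eb_diag hb k).2 (eb_off hb hik.symm) (eb_off hb hjk.symm) (eb_off hb hik) (eb_off hb hjk)
    (hsum i) (hsum j) (hsum k) (G_pair hb v hik) (G_pair hb v hjk) hl.1
    (G_three hb hik hv) (G_three hb hjk hv) hk

end Pool.Agent.Lib.MP_5e7226_co.L7
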