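import Pool.Agent.Lib.MP_5e7226_co.L7.F

/-!
# Points of the convex hull

`hull_pts`: with `M = ctr x + ti A2 k i + tj A2 k j + θ A3 k i j` and
`Q = κ eb k + ti eb i + tj eb j + 2 θ A2 i j` the points `M ∓ (1/2) Q` are convex combinations of the
`x v`: the weight of `x v` in `M - (1/2) Q` is
`(1/8) (1 - κ s_k + (s_k - 1)(ti s_i + tj s_j + θ s_i s_j))` with `s_l = sg v l`; for `s_k = 1` it is
`(1-κ)/8 ≥ 0`, for `s_k = -1` it is `(1 + κ - 2 (ti s_i + tj s_j + θ s_i s_j))/8 ≥ 0`; the weights have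
sum `1`. For `M + (1/2) Q` replace `s_k` by `- s_k` in `1 - κ s_k` and `s_k - 1` by `s_k + 1`.
(`Convex.sum_mem` with explicit weights; the sums over `Fin 8` by `Fin.sum_univ_eight`. Prove it
generically from `sg v l * sg v l = 1` or by cases on `i, j, k`.)
-/

set_option autoImplicit false

open Set Filter Topology

namespace Pool.Agent.Lib.MP_5e7226_co.L7

open GB

private theorem H_sum1 (k : Fin 3) : ∑ v : Fin 8, sg v k = 0 := by
  have h : ∀ k : Fin 3, ∑ v : Fin 8, (if bit v k then (-1 : ℤ) else 1) = 0 := by decide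
  have h2 : ∑ v : Fin 8, sg v k = ((∑ v : Fin 8, (if bit v k then (-1 : ℤ) else 1) : ℤ) : ℝ) := by
    rw [Int.cast_sum]
    refine Finset.sum_congr rfl fun v _ => ?_
    cases hb : bit v k <;> simp [sg, sb, hb]
  rw [h2, h k, Int.cast_zero]

private theorem H_sum2 {i k : Fin 3} (hik : i ≠ k) : ∑ v : Fin 8, sg v i * sg v k = 0 := by
  have h : ∀ i k : Fin 3, i ≠ k → ∑ v : Fin 8, (if bit v i then (-1 : ℤ) else 1) *
      (if bit v k then (-1 : ℤ) else 1) = 0 := by decide
  have h2 : ∑ v : Fin 8, sg v i * sg v k = ((∑ v : Fin 8, (if bit v i then (-1 : ℤ) else 1) *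
      (if bit v k then (-1 : ℤ) else 1) : ℤ) : ℝ) := by
    rw [Int.cast_sum]
    refine Finset.sum_congr rfl fun v _ => ?_
    cases hb : bit v k <;> cases hc : bit v i <;> simp [sg, sb, hb, hc]
  rw [h2, h i k hik, Int.cast_zero]

private theorem H_sum3 {i j k : Fin 3} (hij : i ≠ j) (hik : i ≠ k) (hjk : j ≠ k) :
    ∑ v : Fin 8, sg v i * sg v j * sg v k = 0 := by
  have h : ∀ i j k : Fin 3, i ≠ j → i ≠ k → j ≠ k → ∑ v : Fin 8, (if bit v i then (-1 : ℤ) else 1) *
      (if bit v j then (-1 : ℤ) else 1) * (if bit v k then (-1 : ℤ) else 1) = 0 := by decide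
  have h2 : ∑ v : Fin 8, sg v i * sg v j * sg v k = ((∑ v : Fin 8, (if bit v i then (-1 : ℤ) else 1) *
      (if bit v j then (-1 : ℤ) else 1) * (if bit v k then (-1 : ℤ) else 1) : ℤ) : ℝ) := by
    rw [Int.cast_sum]
    refine Finset.sum_congr rfl fun v _ => ?_
    cases hb : bit v k <;> cases hc : bit v i <;> cases hd : bit v j <;> simp [sg, sb, hb, hc, hd]
  rw [h2, h i j k hij hik hjk, Int.cast_zero]

private theorem H_T {i j : Fin 3} {κ ti tj θ : ℝ} (h : |ti| + |tj| + |θ| ≤ (1 + κ)/2) (v : Fin 8) :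
    |ti * sg v i + tj * sg v j + θ * (sg v i * sg v j)| ≤ (1 + κ)/2 := by
  have h1 : |ti * sg v i| = |ti| := by rw [abs_mul, sg, abs_sb, mul_one]
  have h2 : |tj * sg v j| = |tj| := by rw [abs_mul, sg, abs_sb, mul_one]
  have h3 : |θ * (sg v i * sg v j)| = |θ| := by
    have ha : |sg v i| = 1 := abs_sb _
    have hb : |sg v j| = 1 := abs_sb _
    rw [abs_mul, abs_mul, ha, hb, mul_one, mul_one]
  have h4 := abs_add_le (ti * sg v i + tj * sg v j) (θ * (sg v i * sg v j))
  have h5 := abs_add_le (ti * sg v i) (tj * sg v j)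
  linarith

theorem hull_pts (x : Fin 8 → E) {i j k : Fin 3} (hij : i ≠ j) (hik : i ≠ k) (hjk : j ≠ k)
    {κ ti tj θ : ℝ} (hκ : κ ≤ 1) (h : |ti| + |tj| + |θ| ≤ (1 + κ)/2) :
    (ctr x + ti • A2 x k i + tj • A2 x k j + θ • A3 x k i j)
        - (1/2 : ℝ) • (κ • eb x k + ti • eb x i + tj • eb x j + (2 * θ) • A2 x i j)
      ∈ convexHull ℝ (range x) ∧
    (ctr x + ti • A2 x k i + tj • A2 x k j + θ • A3 x k i j)
        + (1/2 : ℝ) • (κ • eb x k + ti • eb x i + tj • eb x j + (2 * θ) • A2 x i j)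
      ∈ convexHull ℝ (range x) := by
  have hmem : ∀ W : Fin 8 → ℝ, (∀ v, 0 ≤ W v) → ∑ v, W v = 1 → ∑ v, W v • x v ∈ convexHull ℝ (range x) := by
    intro W hW hs
    exact (convex_convexHull ℝ (range x)).sum_mem (fun v _ => hW v) hs
      (fun v _ => subset_convexHull ℝ (range x) ⟨v, rfl⟩)
  have e1 := H_sum1 k
  have e1i := H_sum1 i
  have e1j := H_sum1 j
  have e2 := H_sum2 hij
  have e3 := H_sum2 hik
  have e4 := H_sum2 hjk
  have e5 := H_sum3 hij hik hjk
  rw [Fin.sum_univ_eight] at e1 e1i e1j e2 e3 e4 e5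
  constructor
  · have hw := hmem (fun v => (1/8 : ℝ) * (1 - κ * sg v k + (sg v k - 1) *
      (ti * sg v i + tj * sg v j + θ * (sg v i * sg v j)))) (fun v => by
        have hT := abs_le.1 (H_T (i := i) (j := j) h v)
        rcases sb_or (bit v k) with hk | hk
        · have hk' : sg v k = 1 := hk
          rw [hk']
          linarith
        · have hk' : sg v k = -1 := hk
          rw [hk']
          linarith [hT.1, hT.2]) (by
        rw [Fin.sum_univ_eight]
        linear_combination (-κ / 8) * e1 + (ti / 8) * e3 + (tj / 8) * e4 + (θ / 8) * e5 - (ti / 8) * e1i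
          - (tj / 8) * e1j - (θ / 8) * e2)
    convert hw using 1
    funext l
    simp only [ctr, eb, A2, A3, Fin.sum_univ_eight, Pi.add_apply, Pi.sub_apply, Pi.smul_apply, smul_eq_mul]
    ring
  · have hw := hmem (fun v => (1/8 : ℝ) * (1 + κ * sg v k + (sg v k + 1) *
      (ti * sg v i + tj * sg v j + θ * (sg v i * sg v j)))) (fun v => by
        have hT := abs_le.1 (H_T (i := i) (j := j) h v)
        rcases sb_or (bit v k) with hk | hk
        · have hk' : sg v k = 1 := hk
          rw [hk']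
          linarith [hT.1, hT.2]
        · have hk' : sg v k = -1 := hk
          rw [hk']
          linarith) (by
        rw [Fin.sum_univ_eight]
        linear_combination (κ / 8) * e1 + (ti / 8) * e3 + (tj / 8) * e4 + (θ / 8) * e5 + (ti / 8) * e1i
          + (tj / 8) * e1j + (θ / 8) * e2)
    convert hw using 1
    funext l
    simp only [ctr, eb, A2, A3, Fin.sum_univ_eight, Pi.add_apply, Pi.smul_apply, smul_eq_mul]
    ring

end Pool.Agent.Lib.MP_5e7226_co.L7
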