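import Pool.Agent.Lib.MP_5e7226_co.L7.M1

/-!
# Merging two adjacent corners

`illum_merge`: the seven directions, where `i, j` are the two axes different from `k`:
`w`, `dv v i`, `dv v j`, `dv (flip v k) i`, `dv (flip v k) j`, `- sg (flip (flip v i) j)`,
`- sg (flip (flip (flip v k) i) j)`.
Let `y ∈ L` lie in the octant `u` (`exists_oct`). Compare `u` with `v` in the axes `i, j`
(`u` is one of the eight corners `v`, `flip v k`, ... ; e.g. by `GB.bit_ext` or `decide`):
* differs in both: `serve_oct` with `c = 1` and the direction `- sg u`;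
* differs in exactly one of them, say `i`: with `s = flip u i ∈ {v, flip v k}` the direction
  `dv s i` is `fun l => -(sg u l * c l)`, `c i = 61/200`, else `1`: `serve_oct`;
* `u = v` or `u = flip v k`: `corner_case` (the hypotheses on `w` only concern `|w k|` and the
  coordinates `≠ k`, where the two sign vectors agree, `sg_flip_ne`).
-/

set_option autoImplicit false

open Set Filter Topology

namespace Pool.Agent.Lib.MP_5e7226_co.L7

open GB

private theorem M_cases (u v : Fin 8) {i j k : Fin 3} (hij : i ≠ j) (hik : i ≠ k) (hjk : j ≠ k) :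
    u = v ∨ u = flip v k ∨ u = flip v i ∨ u = flip v j ∨ u = flip (flip v k) i ∨
      u = flip (flip v k) j ∨ u = flip (flip v i) j ∨ u = flip (flip (flip v k) i) j := by
  have key : ∀ w : Fin 8, bit u i = bit w i → bit u j = bit w j → bit u k = bit w k → u = w := by
    intro w h1 h2 h3
    refine bit_ext fun l => ?_
    rcases third hij hik hjk l with rfl | rfl | rfl <;> assumption
  have nb : ∀ a b : Bool, a ≠ b → a = !b := by decide
  by_cases h1 : bit u i = bit v i
  · by_cases h2 : bit u j = bit v j
    · by_cases h3 : bit u k = bit v k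
      · exact Or.inl (key _ h1 h2 h3)
      · exact Or.inr (Or.inl (key _ (by rw [bit_flip_ne _ hik, h1]) (by rw [bit_flip_ne _ hjk, h2])
          (by rw [bit_flip_self, nb _ _ h3])))
    · by_cases h3 : bit u k = bit v k
      · exact Or.inr (Or.inr (Or.inr (Or.inl (key _ (by rw [bit_flip_ne _ hij, h1])
          (by rw [bit_flip_self, nb _ _ h2]) (by rw [bit_flip_ne _ hjk.symm, h3])))))
      · exact Or.inr (Or.inr (Or.inr (Or.inr (Or.inr (Or.inl (key _
          (by rw [bit_flip_ne _ hij, bit_flip_ne _ hik, h1])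
          (by rw [bit_flip_self, bit_flip_ne _ hjk, nb _ _ h2])
          (by rw [bit_flip_ne _ hjk.symm, bit_flip_self, nb _ _ h3])))))))
  · by_cases h2 : bit u j = bit v j
    · by_cases h3 : bit u k = bit v k
      · exact Or.inr (Or.inr (Or.inl (key _ (by rw [bit_flip_self, nb _ _ h1])
          (by rw [bit_flip_ne _ hij.symm, h2]) (by rw [bit_flip_ne _ hik.symm, h3]))))
      · exact Or.inr (Or.inr (Or.inr (Or.inr (Or.inl (key _
          (by rw [bit_flip_self, bit_flip_ne _ hik, nb _ _ h1])
          (by rw [bit_flip_ne _ hij.symm, bit_flip_ne _ hjk, h2])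
          (by rw [bit_flip_ne _ hik.symm, bit_flip_self, nb _ _ h3]))))))
    · by_cases h3 : bit u k = bit v k
      · exact Or.inr (Or.inr (Or.inr (Or.inr (Or.inr (Or.inr (Or.inl (key _
          (by rw [bit_flip_ne _ hij, bit_flip_self, nb _ _ h1])
          (by rw [bit_flip_self, bit_flip_ne _ hij.symm, nb _ _ h2])
          (by rw [bit_flip_ne _ hjk.symm, bit_flip_ne _ hik.symm, h3]))))))))
      · exact Or.inr (Or.inr (Or.inr (Or.inr (Or.inr (Or.inr (Or.inr (key _
          (by rw [bit_flip_ne _ hij, bit_flip_self, bit_flip_ne _ hik, nb _ _ h1])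
          (by rw [bit_flip_self, bit_flip_ne _ hij.symm, bit_flip_ne _ hjk, nb _ _ h2])
          (by rw [bit_flip_ne _ hjk.symm, bit_flip_ne _ hik.symm, bit_flip_self, nb _ _ h3]))))))))

private theorem M_one {L : Set E} (hS : Sand L) (s : Fin 8) (i : Fin 3) {y : E} (hy : y ∈ L)
    (hu : ∀ l, 0 ≤ sg (flip s i) l * y l) : Serve L y (dv s i) := by
  have h1 : dv s i = fun l => -(sg (flip s i) l * (fun l => if l = i then (61/200 : ℝ) else 1) l) := by
    funext l
    by_cases h : l = i
    · subst h
      simp only [dv, if_true, sg_flip_self]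
      ring
    · simp only [dv, if_neg h, sg_flip_ne _ h]
      ring
  rw [h1]
  refine serve_oct hS hy _ hu _ ?_
  intro l
  by_cases h : l = i
  · simp only [if_pos h]
    norm_num
  · simp only [if_neg h]
    norm_num

private theorem M_all {L : Set E} (hS : Sand L) (u : Fin 8) {y : E} (hy : y ∈ L)
    (hu : ∀ l, 0 ≤ sg u l * y l) : Serve L y (fun l => - sg u l) := by
  have h1 : (fun l => - sg u l) = fun l => -(sg u l * (fun _ : Fin 3 => (1 : ℝ)) l) := by
    funext l
    simp
  rw [h1]
  refine serve_oct hS hy _ hu _ ?_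
  intro l
  norm_num

theorem illum_merge {L : Set E} (hS : Sand L) (v : Fin 8) (k : Fin 3) {x x' w : E}
    (hd : Dark L v x) (hd' : Dark L (flip v k) x') (hk : |w k| ≤ 301/1000)
    (hw : ∀ l, l ≠ k → 799/1000 ≤ - sg v l * w l ∧ - sg v l * w l ≤ 1401/1000)
    (h1 : Serve L x w) (h2 : Serve L x' w) : Illum L 7 := by
  classical
  have hex : ∀ k : Fin 3, ∃ i j : Fin 3, i ≠ j ∧ i ≠ k ∧ j ≠ k := by decide
  obtain ⟨i, j, hij, hik, hjk⟩ := hex k
  refine illum_of ([w, dv v i, dv v j, dv (flip v k) i, dv (flip v k) j,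
    (fun l => - sg (flip (flip v i) j) l), (fun l => - sg (flip (flip (flip v k) i) j) l)] :
      List E).toFinset (List.toFinset_card_le _) ?_
  intro y hy
  obtain ⟨u, hu⟩ := exists_oct y
  have fin : ∀ d : E, d ∈ ([w, dv v i, dv v j, dv (flip v k) i, dv (flip v k) j,
      (fun l => - sg (flip (flip v i) j) l), (fun l => - sg (flip (flip (flip v k) i) j) l)] :
        List E) → Serve L y d → ∃ d ∈ ([w, dv v i, dv v j, dv (flip v k) i, dv (flip v k) j,
      (fun l => - sg (flip (flip v i) j) l), (fun l => - sg (flip (flip (flip v k) i) j) l)] :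
        List E).toFinset, Serve L y d :=
    fun d hd hs => ⟨d, List.mem_toFinset.2 hd, hs⟩
  rcases M_cases u v hij hik hjk with rfl | rfl | rfl | rfl | rfl | rfl | rfl | rfl
  · rcases corner_case hS _ hij hik hjk hd hk hw h1 hy hu with h | h | h
    · exact fin _ (by simp) h
    · exact fin _ (by simp) h
    · exact fin _ (by simp) h
  · have hw' : ∀ l, l ≠ k → 799/1000 ≤ - sg (flip v k) l * w l ∧
        - sg (flip v k) l * w l ≤ 1401/1000 := by
      intro l hl
      rw [sg_flip_ne v hl]
      exact hw l hl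
    rcases corner_case hS _ hij hik hjk hd' hk hw' h2 hy hu with h | h | h
    · exact fin _ (by simp) h
    · exact fin _ (by simp) h
    · exact fin _ (by simp) h
  · exact fin _ (by simp) (M_one hS _ _ hy hu)
  · exact fin _ (by simp) (M_one hS _ _ hy hu)
  · exact fin _ (by simp) (M_one hS _ _ hy hu)
  · exact fin _ (by simp) (M_one hS _ _ hy hu)
  · exact fin _ (by simp) (M_all hS _ hy hu)
  · exact fin _ (by simp) (M_all hS _ hy hu)

end Pool.Agent.Lib.MP_5e7226_co.L7
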