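import Pool.Agent.Lib.MP_5e7226_co.L7.Defs

/-!
# Uniqueness of a point with normals near the three axes

Let `z = x' - x`, `γ = 11/9`, `n = max (|z k| / γ) (max over the other i of |z i|)`, and suppose
`z ≠ 0`, so `n > 0`, `|z k| ≤ γ n`, `|z i| ≤ n` for `i ≠ k`, and one of these is an equality, at the
index `l`. Write `s = - sg v l * z l`, `|s| = |z l|`.
If `s < 0` use the normal `m` of `h l` at `x` (`0 ≤ dt m z` because `x' ∈ L`): with
`p = - sg v l * m l` one has `m l * z l = p * s = - p |z l|` and the other coordinates of `m` have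
total mass `1 - p` (as `∑ |m i| = 1`). If `l = k`: `p > 9/20`, `dt m z ≤ - p γ n + (1 - p) n < 0` since
`p (1 + γ) > 1` (`1 + γ = 20/9`). If `l ≠ k`: `p > 11/20`, `dt m z ≤ - p n + (1 - p) γ n < 0` since
`p (1 + γ) > γ`.
If `s > 0` use the normal of `h' l` at `x'` (`dt m z ≤ 0` because `x ∈ L`) with `p > 11/20`: the same
computation gives `dt m z > 0` (for `l = k`: `p γ - (1 - p) > 0`; for `l ≠ k`: `p - (1-p) γ > 0`).
(`sg v i * sg v i = 1`, `|sg v i| = 1`: `GB.sb_sq`, `GB.abs_sb`.)
-/

set_option autoImplicit false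

open Set Filter Topology

namespace Pool.Agent.Lib.MP_5e7226_co.L7

open GB

private lemma U_core {k l : Fin 3} {v : Fin 8} {m z : E} {n : ℝ} (hm : ∑ i, |m i| = 1)
    (hn : 0 < n) (hz : ∀ i, |z i| ≤ (if i = k then (11/9 : ℝ) else 1) * n)
    (hp : (if l = k then (9/20 : ℝ) else 11/20) < - sg v l * m l) :
    |dt m z - m l * z l| < (- sg v l * m l) * ((if l = k then (11/9 : ℝ) else 1) * n) := by
  set p := - sg v l * m l with hpdef
  have hml : |m l| = |p| := by
    rw [hpdef, abs_mul, abs_neg, show |sg v l| = 1 from abs_sb _, one_mul]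
  have h1 : dt m z - m l * z l = ∑ i ∈ Finset.univ.erase l, m i * z i := by
    unfold dt
    rw [← Finset.add_sum_erase Finset.univ (fun i => m i * z i) (Finset.mem_univ l)]
    ring
  have h2 : ∑ i ∈ Finset.univ.erase l, |m i| = 1 - |m l| := by
    rw [← hm, ← Finset.add_sum_erase Finset.univ (fun i => |m i|) (Finset.mem_univ l)]
    ring
  have h3 : |∑ i ∈ Finset.univ.erase l, m i * z i| ≤
      ∑ i ∈ Finset.univ.erase l, |m i| * ((if l = k then (1 : ℝ) else 11/9) * n) := by
    refine (Finset.abs_sum_le_sum_abs _ _).trans (Finset.sum_le_sum fun i hi => ?_)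
    rw [abs_mul]
    refine mul_le_mul_of_nonneg_left ((hz i).trans ?_) (abs_nonneg _)
    refine mul_le_mul_of_nonneg_right ?_ hn.le
    have hil : i ≠ l := Finset.ne_of_mem_erase hi
    by_cases h4 : i = k
    · have h5 : l ≠ k := fun h => hil (h4.trans h.symm)
      rw [if_pos h4, if_neg h5]
    · rw [if_neg h4]
      split_ifs <;> norm_num
  rw [← Finset.sum_mul, h2] at h3
  rw [h1]
  refine lt_of_le_of_lt h3 ?_
  have h4 : p ≤ |m l| := by
    rw [hml]
    exact le_abs_self p
  have h5 : 0 ≤ n * (|m l| - p) := mul_nonneg hn.le (by linarith)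
  by_cases hlk : l = k
  · rw [if_pos hlk] at hp ⊢
    rw [if_pos hlk]
    have h6 : 0 < n * (p - 9/20) := mul_pos hn (by linarith)
    nlinarith
  · rw [if_neg hlk] at hp ⊢
    rw [if_neg hlk]
    have h6 : 0 < n * (p - 11/20) := mul_pos hn (by linarith)
    nlinarith

private lemma U_split {v : Fin 8} {l : Fin 3} (m z : E) :
    m l * z l = (- sg v l * m l) * (- sg v l * z l) := by
  have h : sg v l * sg v l = 1 := sb_sq _
  calc m l * z l = (sg v l * sg v l) * (m l * z l) := by rw [h, one_mul]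
    _ = (- sg v l * m l) * (- sg v l * z l) := by ring

theorem uniq {L : Set E} {x x' : E} (hx : x ∈ L) (hx' : x' ∈ L) (k : Fin 3) (v : Fin 8)
    (h : ∀ i, ∃ m, Nrm L x m ∧ (if i = k then (9/20 : ℝ) else 11/20) < - sg v i * m i)
    (h' : ∀ i, ∃ m, Nrm L x' m ∧ (11/20 : ℝ) < - sg v i * m i) : x = x' := by
  by_contra hne
  obtain ⟨l, -, hl⟩ := Finset.exists_max_image (Finset.univ : Finset (Fin 3))
    (fun i => |x' i - x i| / (if i = k then (11/9 : ℝ) else 1)) ⟨0, Finset.mem_univ 0⟩
  have hg : ∀ i : Fin 3, (0 : ℝ) < (if i = k then (11/9 : ℝ) else 1) := by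
    intro i
    split_ifs <;> norm_num
  obtain ⟨z, hz⟩ : ∃ z : E, z = fun i => x' i - x i := ⟨_, rfl⟩
  obtain ⟨n, hn⟩ : ∃ n : ℝ, n = |z l| / (if l = k then (11/9 : ℝ) else 1) := ⟨_, rfl⟩
  have hzl : |z l| = (if l = k then (11/9 : ℝ) else 1) * n := by
    rw [hn]
    field_simp [(hg l).ne']
  have hzi : ∀ i, |z i| ≤ (if i = k then (11/9 : ℝ) else 1) * n := by
    intro i
    have h1 := hl i (Finset.mem_univ i)
    have h2 : |z i| / (if i = k then (11/9 : ℝ) else 1) ≤ n := by
      rw [hn, hz]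
      exact h1
    rw [div_le_iff₀ (hg i)] at h2
    linarith
  have hn0 : 0 ≤ n := by
    rw [hn]
    exact div_nonneg (abs_nonneg _) (hg l).le
  have hnpos : 0 < n := by
    rcases hn0.lt_or_eq with h1 | h1
    · exact h1
    · exfalso
      apply hne
      funext i
      have h2 := hzi i
      rw [← h1, mul_zero] at h2
      have h3 : z i = 0 := abs_nonpos_iff.1 h2
      rw [hz] at h3
      have h4 : x' i - x i = 0 := h3
      linarith
  have hdt : ∀ m : E, dt m z = dt m x' - dt m x := by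
    intro m
    unfold dt
    rw [← Finset.sum_sub_distrib, hz]
    exact Finset.sum_congr rfl fun i _ => by ring
  have hsabs : |(- sg v l * z l)| = (if l = k then (11/9 : ℝ) else 1) * n := by
    rw [abs_mul, abs_neg, show |sg v l| = 1 from abs_sb _, one_mul, hzl]
  rcases lt_or_ge (- sg v l * z l) 0 with hs | hs
  · obtain ⟨m, ⟨hm1, hm2⟩, hm3⟩ := h l
    have h1 := U_core hm1 hnpos hzi hm3
    have h2 := hm2 x' hx'
    have h3 := hdt m
    rw [abs_of_neg hs] at hsabs
    have h4 := U_split (v := v) (l := l) m z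
    have h5 := (abs_lt.1 h1).2
    have h6 : m l * z l = -((- sg v l * m l) * ((if l = k then (11/9 : ℝ) else 1) * n)) := by
      rw [h4, ← hsabs]
      ring
    linarith
  · obtain ⟨m, ⟨hm1, hm2⟩, hm3⟩ := h' l
    have hm4 : (if l = k then (9/20 : ℝ) else 11/20) < - sg v l * m l := by
      refine lt_of_le_of_lt ?_ hm3
      split_ifs <;> norm_num
    have h1 := U_core hm1 hnpos hzi hm4
    have h2 := hm2 x hx
    have h3 := hdt m
    rw [abs_of_nonneg hs] at hsabs
    have h4 := U_split (v := v) (l := l) m z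
    have h5 := (abs_lt.1 h1).1
    have h6 : m l * z l = (- sg v l * m l) * ((if l = k then (11/9 : ℝ) else 1) * n) := by
      rw [h4, hsabs]
    linarith

end Pool.Agent.Lib.MP_5e7226_co.L7
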