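import Pool.Agent.Lib.MP_5e7226_co.L7.W
import Pool.Agent.Lib.MP_5e7226_co.L7.B2
import Pool.Agent.Lib.MP_5e7226_co.L7.U

/-!
# The two merged corners

`corner_case`: suppose none of `dv u i`, `dv u j`, `w` serves `y`. `not_serve_dv`, `cor_of_nrm`,
`cor_tilt`: `9/10 ≤ sg u i * y i`, the same for `j`. For `w`: `exists_nrm` and `cor_merge` with
`ω = - sg u k * w k`, `a = - sg u i * w i`, `b = - sg u j * w j`
(`m l * w l = (- sg u l * m l) * (- sg u l * w l)`): `453/1000 ≤ - sg u k * m k` and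
`88/100 ≤ sg u k * y k`. Then `cor_tilt_b` for `i` and `j`. So `uniq` (applied to `y` and the dark
point `x` of `u`, with `dark_strong`; `453/1000 > 9/20`) gives `y = x`, but `w` serves `x`.
-/

set_option autoImplicit false

open Set Filter Topology

namespace Pool.Agent.Lib.MP_5e7226_co.L7

open GB

/-- the last case of the merging lemma, for one corner `u` -/
theorem corner_case {L : Set E} (hS : Sand L) (u : Fin 8) {i j k : Fin 3} (hij : i ≠ j)
    (hik : i ≠ k) (hjk : j ≠ k) {x w : E} (hd : Dark L u x) (hk : |w k| ≤ 301/1000)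
    (hw : ∀ l, l ≠ k → 799/1000 ≤ - sg u l * w l ∧ - sg u l * w l ≤ 1401/1000)
    (hs : Serve L x w) {y : E} (hy : y ∈ L) (ho : ∀ l, 0 ≤ sg u l * y l) :
    Serve L y (dv u i) ∨ Serve L y (dv u j) ∨ Serve L y w := by
  by_contra hcon
  have h1 : ¬ Serve L y (dv u i) := fun h => hcon (Or.inl h)
  have h2 : ¬ Serve L y (dv u j) := fun h => hcon (Or.inr (Or.inl h))
  have h3 : ¬ Serve L y w := fun h => hcon (Or.inr (Or.inr h))
  obtain ⟨m1, hm1, ht1⟩ := not_serve_dv hS hy u hij.symm hjk hik h1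
  obtain ⟨m2, hm2, ht2⟩ := not_serve_dv hS hy u hij hik hjk h2
  obtain ⟨m3, hm3, ht3⟩ := exists_nrm hS hy h3
  have c1 := cor_of_nrm hS hy hm1 u ho
  have c2 := cor_of_nrm hS hy hm2 u ho
  have c3 := cor_of_nrm hS hy hm3 u ho
  have hXi : 9/10 ≤ sg u i * y i := (cor_tilt c1 hij.symm hjk hik ht1).2
  have hXj : 9/10 ≤ sg u j * y j := (cor_tilt c2 hij hik hjk ht2).2
  have hsq : ∀ l, sg u l * sg u l = 1 := fun l => sb_sq _
  have hω : |- sg u k * w k| ≤ 301/1000 := by
    have e : |sg u k| = 1 := abs_sb _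
    rw [abs_mul, abs_neg, e, one_mul]
    exact hk
  have hsum : (- sg u k * w k) * (- sg u k * m3 k) + (- sg u i * w i) * (- sg u i * m3 i) +
      (- sg u j * w j) * (- sg u j * m3 j) ≤ 0 := by
    have e : (- sg u k * w k) * (- sg u k * m3 k) + (- sg u i * w i) * (- sg u i * m3 i) +
        (- sg u j * w j) * (- sg u j * m3 j) = (sg u k * sg u k) * (m3 k * w k) +
        (sg u i * sg u i) * (m3 i * w i) + (sg u j * sg u j) * (m3 j * w j) := by ring
    rw [e, hsq, hsq, hsq]
    have e2 : dt m3 w = m3 i * w i + m3 j * w j + m3 k * w k := by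
      unfold dt
      exact sum3 hij hik hjk _
    rw [e2] at ht3
    linarith
  have hM := cor_merge c3 hij hik hjk hXi hXj hω (hw i hik) (hw j hjk) hsum
  have hμk : 453/1000 ≤ - sg u k * m3 k := hM.1
  have hXk : 88/100 ≤ sg u k * y k := hM.2
  have hXi' : 88/100 ≤ sg u i * y i := by linarith
  have hXj' : 88/100 ≤ sg u j * y j := by linarith
  have hμi : 11/20 < - sg u i * m1 i := cor_tilt_b c1 hij.symm hjk hik ht1 hXj' hXk
  have hμj : 11/20 < - sg u j * m2 j := cor_tilt_b c2 hij hik hjk ht2 hXi' hXk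
  have hyx : y = x := by
    refine uniq hy hd.mem k u ?_ (dark_strong hS hd).1
    intro l
    rcases third hij hik hjk l with rfl | rfl | rfl
    · exact ⟨m1, hm1, by rw [if_neg hik]; exact hμi⟩
    · exact ⟨m2, hm2, by rw [if_neg hjk]; exact hμj⟩
    · refine ⟨m3, hm3, ?_⟩
      rw [if_pos rfl]
      linarith
  rw [hyx] at h3
  exact h3 hs

end Pool.Agent.Lib.MP_5e7226_co.L7
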