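import Pool.Agent.Lib.MP_5e7226_co.L7.Defs

/-!
# Longer chords serve both ends

`serve_chord`: let `w₀ = (1/2)(p + p' - x - x')`. For `η ∈ (0,1)` let `pη = (1-η) p`,
`p'η = (1-η) p'`: both lie in `interior L` (`0 ∈ interior L`,
`Convex.combo_interior_self_mem_interior` or `Convex.openSegment_interior_self_subset_interior`), and
`p'η - pη = (1-η) lam (x'-x)` with `(1-η) lam > 1` for small `η`. Put `μ = ((1-η) lam - 1)/2 > 0` and
`w = (pη - x) + μ (x' - x) = (p'η - x') + μ (x - x') = (1/2)(pη + p'η - x - x')`. Then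
`Serve L x (pη - x)` (`GB.serve_mk` with `c = 1`) and `Feas L x (μ (x' - x))` (`Feas.mk`), so
`Serve.add` gives `Serve L x w`; the same at `x'`. And `|w i - w₀ i| = η |p i + p' i| / 2 < δ` for small
`η`.
-/

set_option autoImplicit false

open Set Filter Topology

namespace Pool.Agent.Lib.MP_5e7226_co.L7

open GB

theorem serve_chord {L : Set E} (hc : Convex ℝ L) (h0 : (0 : E) ∈ interior L) {x x' p p' : E}
    (hx : x ∈ L) (hx' : x' ∈ L) (hp : p ∈ L) (hp' : p' ∈ L) {lam : ℝ} (hl : 1 < lam)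
    (h : p' - p = lam • (x' - x)) {δ : ℝ} (hδ : 0 < δ) :
    ∃ w : E, (∀ i, |w i - (1/2) * (p i + p' i - x i - x' i)| < δ) ∧ Serve L x w ∧
      Serve L x' w := by
  -- a bound for the coordinates
  obtain ⟨M, hM⟩ : ∃ M : ℝ, ∀ i, |p i + p' i| ≤ M := ⟨∑ i, |p i + p' i|, fun i =>
    Finset.single_le_sum (f := fun i => |p i + p' i|) (fun i _ => abs_nonneg _) (Finset.mem_univ i)⟩
  have hM0 : 0 ≤ M := (abs_nonneg _).trans (hM 0)
  obtain ⟨η, hη0, hη1, hηl, hηM⟩ : ∃ η : ℝ, 0 < η ∧ η < 1 ∧ 1 < (1 - η) * lam ∧ η * M < 2 * δ := by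
    refine ⟨min (1/2) (min ((lam - 1) / (2 * lam)) (δ / (M + 1))), ?_, ?_, ?_, ?_⟩
    · refine lt_min (by norm_num) (lt_min (div_pos (by linarith) (by linarith)) (div_pos hδ (by linarith)))
    · exact (min_le_left _ _).trans_lt (by norm_num)
    · have h1 : min (1/2) (min ((lam - 1) / (2 * lam)) (δ / (M + 1))) ≤ (lam - 1) / (2 * lam) :=
        (min_le_right _ _).trans (min_le_left _ _)
      have h2 : min (1/2) (min ((lam - 1) / (2 * lam)) (δ / (M + 1))) * lam ≤ (lam - 1) / (2 * lam) * lam :=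
        mul_le_mul_of_nonneg_right h1 (by linarith)
      have h3 : (lam - 1) / (2 * lam) * lam = (lam - 1) / 2 := by field_simp
      nlinarith
    · have h1 : min (1/2) (min ((lam - 1) / (2 * lam)) (δ / (M + 1))) ≤ δ / (M + 1) :=
        (min_le_right _ _).trans (min_le_right _ _)
      have h2 : min (1/2) (min ((lam - 1) / (2 * lam)) (δ / (M + 1))) * M ≤ δ / (M + 1) * M :=
        mul_le_mul_of_nonneg_right h1 hM0
      have h3 : δ / (M + 1) * M ≤ δ := by
        rw [div_mul_eq_mul_div, div_le_iff₀ (by linarith)]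
        nlinarith
      linarith
  have hint : ∀ y ∈ L, (1 - η) • y ∈ interior L := by
    intro y hy
    have h1 := hc.combo_interior_self_mem_interior h0 hy (a := η) (b := 1 - η) hη0 (by linarith) (by ring)
    simpa using h1
  have hpη := hint p hp
  have hp'η := hint p' hp'
  set μ : ℝ := ((1 - η) * lam - 1) / 2 with hμ
  have hμ0 : 0 ≤ μ := by
    rw [hμ]; linarith
  have hcoord : ∀ i, p' i - p i = lam * (x' i - x i) := by
    intro i
    have := congrFun h i
    simpa using this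
  refine ⟨((1 : ℝ) • ((1 - η) • p - x)) + μ • (x' - x), ?_, ?_, ?_⟩
  · intro i
    have e : (((1 : ℝ) • ((1 - η) • p - x)) + μ • (x' - x)) i - (1/2) * (p i + p' i - x i - x' i) =
        -(η / 2) * (p i + p' i) := by
      simp only [Pi.add_apply, Pi.smul_apply, Pi.sub_apply, smul_eq_mul, one_mul]
      rw [hμ]
      linear_combination (-(1 - η) / 2) * hcoord i
    rw [e, abs_mul, abs_neg, abs_of_pos (by linarith : 0 < η / 2)]
    have := mul_le_mul_of_nonneg_left (hM i) (by linarith : 0 ≤ η / 2)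
    linarith
  · exact Serve.add hc (serve_mk hpη one_pos) (Feas.mk hx' hμ0)
  · have e : ((1 : ℝ) • ((1 - η) • p - x)) + μ • (x' - x) =
        ((1 : ℝ) • ((1 - η) • p' - x')) + μ • (x - x') := by
      funext i
      simp only [Pi.add_apply, Pi.smul_apply, Pi.sub_apply, smul_eq_mul, one_mul]
      rw [hμ]
      linear_combination (-(1 - η)) * hcoord i
    rw [e]
    exact Serve.add hc (serve_mk hp'η one_pos) (Feas.mk hx hμ0)

end Pool.Agent.Lib.MP_5e7226_co.L7
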