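import Pool.Agent.Lib.MP_5e7226_co.L7.M
import Pool.Agent.Lib.MP_5e7226_co.L7.N1

/-!
# Longer chords serve both ends

`no_merge`: combine with `illum_merge`: use `serve_chord` with a `δ` smaller than the slack in the
(finitely many) strict inequalities of the hypotheses.
-/

set_option autoImplicit false

open Set Filter Topology

namespace Pool.Agent.Lib.MP_5e7226_co.L7

open GB

private theorem N_zero {L : Set E} (hS : Sand L) : (0 : E) ∈ interior L := by
  rw [mem_interior]
  refine ⟨Metric.ball 0 1, ?_, Metric.isOpen_ball, Metric.mem_ball_self one_pos⟩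
  intro y hy
  apply hS.inn
  intro i
  rw [mem_ball_zero_iff] at hy
  have h := norm_le_pi_norm y i
  rw [Real.norm_eq_abs] at h
  linarith

private theorem N_delta (f : Fin 3 → ℝ) (hf : ∀ i, 0 < f i) : ∃ δ : ℝ, 0 < δ ∧ ∀ i, δ ≤ f i := by
  refine ⟨min (f 0) (min (f 1) (f 2)), lt_min (hf 0) (lt_min (hf 1) (hf 2)), ?_⟩
  intro i
  fin_cases i
  · exact min_le_left _ _
  · exact (min_le_right _ _).trans (min_le_left _ _)
  · exact (min_le_right _ _).trans (min_le_right _ _)

theorem no_merge {L : Set E} (hS : Sand L) (hn : ¬ Illum L 7) (v : Fin 8) (k : Fin 3)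
    {x x' p p' : E} (hd : Dark L v x) (hd' : Dark L (flip v k) x') (hp : p ∈ L) (hp' : p' ∈ L)
    {lam : ℝ} (hl : 1 < lam) (h : p' - p = lam • (x' - x))
    (hk : |(1/2) * (p k + p' k - x k - x' k)| < 301/1000)
    (hw : ∀ i, i ≠ k → 799/1000 < - sg v i * ((1/2) * (p i + p' i - x i - x' i)) ∧
      - sg v i * ((1/2) * (p i + p' i - x i - x' i)) < 1401/1000) : False := by
  classical
  obtain ⟨δ, hδ, hδf⟩ := N_delta
    (fun i => if i = k then 301/1000 - |(1/2) * (p k + p' k - x k - x' k)| else
      min (- sg v i * ((1/2) * (p i + p' i - x i - x' i)) - 799/1000)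
        (1401/1000 - - sg v i * ((1/2) * (p i + p' i - x i - x' i))))
    (fun i => by
      by_cases hik : i = k
      · rw [if_pos hik]
        linarith
      · rw [if_neg hik]
        obtain ⟨h1, h2⟩ := hw i hik
        exact lt_min (by linarith) (by linarith))
  obtain ⟨w, hw1, h1, h2⟩ := serve_chord hS.conv (N_zero hS) hd.mem hd'.mem hp hp' hl h hδ
  refine hn (illum_merge hS v k hd hd' (w := w) ?_ ?_ h1 h2)
  · have h3 := hδf k
    rw [if_pos rfl] at h3
    have h4 := hw1 k
    have h5 : |w k| ≤ |w k - (1/2) * (p k + p' k - x k - x' k)| + |(1/2) * (p k + p' k - x k - x' k)| := by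
      have h6 := abs_add_le (w k - (1/2) * (p k + p' k - x k - x' k)) ((1/2) * (p k + p' k - x k - x' k))
      rw [sub_add_cancel] at h6
      exact h6
    linarith
  · intro l hl'
    have h3 := hδf l
    rw [if_neg hl'] at h3
    have h4 := h3.trans (min_le_left _ _)
    have h5 := h3.trans (min_le_right _ _)
    have h6 : |- sg v l * (w l - (1/2) * (p l + p' l - x l - x' l))| < δ := by
      rw [abs_mul, abs_neg]
      have h7 : |sg v l| = 1 := abs_sb _
      rw [h7, one_mul]
      exact hw1 l
    rw [abs_lt] at h6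
    have h8 : - sg v l * w l = - sg v l * (w l - (1/2) * (p l + p' l - x l - x' l)) +
        - sg v l * ((1/2) * (p l + p' l - x l - x' l)) := by ring
    constructor
    · rw [h8]; linarith [h6.1]
    · rw [h8]; linarith [h6.2]

end Pool.Agent.Lib.MP_5e7226_co.L7
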