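import Pool.Agent.Lib.MP_5e7226_co.L7.Aff
import Pool.Agent.Lib.MP_5e7226_co.WL.D

/-!
# From the illumination theorem with equality case to the separation theorem

`sep_or_cross`: if every convex body in the coordinate space is illuminated by seven directions or
is a parallelepiped then for every convex body `K` in `E^3` and every interior point `o` seven planes
separate the faces of `K` from `o`, or `K` is a cross-body centred at `o`.
-/

set_option autoImplicit false

open Set Filter Topology
open scoped InnerProductSpace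

namespace Pool.Agent.Lib.MP_5e7226_co.L7

open GB WL

section

variable {V : Type*} [NormedAddCommGroup V] [InnerProductSpace ℝ V] [FiniteDimensional ℝ V]

/-- a body whose polar is a parallelepiped is a cross-body -/
theorem cross_of_par {K : Set V} (hd : Module.finrank ℝ V = 3) (hK : IsCompact K)
    (hconv : Convex ℝ K) (h0 : (0 : V) ∈ interior K) (hP : IsParW (pol K)) :
    ∃ (v : Fin 3 → V) (t : Fin 3 → ℝ), LinearIndependent ℝ v ∧ (∀ k, 0 < t k) ∧
      K = convexHull ℝ (⋃ k, {v k, -(t k • v k)}) := by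
  obtain ⟨c, e, he, hPe⟩ := hP
  let b : Module.Basis (Fin 3) ℝ V := basisOfLinearIndependentOfCardEqFinrank he (by simp [hd])
  have hb : ∀ i, b i = e i := by intro i; simp [b]
  have hcoord : ∀ (t : Fin 3 → ℝ) (i : Fin 3), b.coord i (∑ j, t j • e j) = t i := by
    intro t i
    rw [map_sum, Finset.sum_eq_single i]
    · rw [map_smul, ← hb i]; simp
    · intro j _ hj
      rw [map_smul, ← hb j]
      simp [hj]
    · intro h; exact absurd (Finset.mem_univ i) h
  have hu : ∀ s : Fin 8, c + ∑ i, sg s i • e i ∈ pol K := by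
    intro s
    rw [hPe]
    exact ⟨sg s, fun i => (abs_sb _).le, rfl⟩
  refine cross_of_eq hK hconv h0 (by norm_num) hd (fun s : Fin 8 => c + ∑ i, sg s i • e i) hu ?_
    (by simp)
  intro s s' hss
  obtain ⟨i, hi⟩ : ∃ i, bit s i ≠ bit s' i := by
    by_contra hcon
    push Not at hcon
    exact hss (bit_ext hcon)
  have hcont : Continuous (b.coord i) := LinearMap.continuous_of_finiteDimensional _
  let f : V →L[ℝ] ℝ := ⟨b.coord i, hcont⟩
  have hf : ∀ t : Fin 3 → ℝ, f (c + ∑ j, t j • e j) = b.coord i c + t i := by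
    intro t
    show b.coord i (c + ∑ j, t j • e j) = _
    rw [map_add, hcoord]
  have hb1 : ∀ g ∈ pol K, b.coord i c - 1 ≤ f g ∧ f g ≤ b.coord i c + 1 := by
    intro g hg
    rw [hPe] at hg
    obtain ⟨t, ht, rfl⟩ := hg
    have := abs_le.1 (ht i)
    rw [hf]
    constructor <;> linarith [this.1, this.2]
  rcases Bool.eq_false_or_eq_true (bit s i) with h1 | h1
  · -- `sg s i = -1`
    have h2 : bit s' i = false := by
      cases h3 : bit s' i
      · rfl
      · rw [h1, h3] at hi; exact absurd rfl hi
    have e1 : sg s i = -1 := by simp [sg, sb, h1]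
    have e2 : sg s' i = 1 := by simp [sg, sb, h2]
    refine opp_of_functional hK hconv h0 (-f) ?_ ?_
    · show -(f _) < -(f _)
      rw [hf, hf, e1, e2]; linarith
    · intro g hg
      have := hb1 g hg
      show -(f _) ≤ -(f _) ∧ -(f _) ≤ -(f _)
      rw [hf, hf, e1, e2]
      constructor <;> linarith [this.1, this.2]
  · have h2 : bit s' i = true := by
      cases h3 : bit s' i
      · rw [h1, h3] at hi; exact absurd rfl hi
      · rfl
    have e1 : sg s i = 1 := by simp [sg, sb, h1]
    have e2 : sg s' i = -1 := by simp [sg, sb, h2]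
    refine opp_of_functional hK hconv h0 f ?_ ?_
    · rw [hf, hf, e1, e2]; linarith
    · intro g hg
      have := hb1 g hg
      rw [hf, hf, e1, e2]
      constructor <;> linarith [this.1, this.2]

end

/-- all spaces of dimension three -/
theorem illum_or_par
    (H : ∀ S : Set E, Convex ℝ S → IsCompact S → (interior S).Nonempty → Illum S 7 ∨ IsPar S)
    {W : Type*} [NormedAddCommGroup W] [NormedSpace ℝ W] [FiniteDimensional ℝ W]
    (hdim : Module.finrank ℝ W = 3) {L : Set W} (hc : Convex ℝ L) (hk : IsCompact L)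
    (hi : (interior L).Nonempty) : Illum L 7 ∨ IsParW L := by
  let T : W ≃L[ℝ] E := ContinuousLinearEquiv.ofFinrankEq (by rw [hdim]; simp)
  have h1 := H (T '' L) (hc.linear_image T.toLinearEquiv.toLinearMap) (hk.image T.continuous) (by
    obtain ⟨x, hx⟩ := hi
    exact ⟨_, T.toHomeomorph.isOpenMap.image_interior_subset L ⟨x, hx, rfl⟩⟩)
  rcases h1 with h1 | h1
  · exact Or.inl (Illum.of_image T h1)
  · right
    have h2 : IsParW (T '' L) := h1
    have h3 := h2.image T.symm.toLinearEquiv 0
    have h4 : (fun y => (0 : W) + T.symm.toLinearEquiv y) '' (T '' L) = L := by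
      rw [← image_comp]
      ext x
      simp
    rwa [h4] at h3

/-- the separation theorem with equality case, from the illumination theorem with equality case -/
theorem sep_or_cross
    (H : ∀ S : Set E, Convex ℝ S → IsCompact S → (interior S).Nonempty → Illum S 7 ∨ IsPar S)
    (K : Set (EuclideanSpace ℝ (Fin 3))) (hconv : Convex ℝ K) (hK : IsCompact K)
    (o : EuclideanSpace ℝ (Fin 3)) (ho : o ∈ interior K) :
    (∃ w : Fin 7 → EuclideanSpace ℝ (Fin 3), ∃ b : Fin 7 → ℝ,
      ∀ u x₀ : EuclideanSpace ℝ (Fin 3), u ≠ 0 → x₀ ∈ K →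
        (∀ y ∈ K, ⟪u, y⟫_ℝ ≤ ⟪u, x₀⟫_ℝ) →
          ∃ i, ⟪w i, o⟫_ℝ < b i ∧
            ∀ x ∈ K, ⟪u, x⟫_ℝ = ⟪u, x₀⟫_ℝ → b i < ⟪w i, x⟫_ℝ) ∨
    ∃ v : Fin 3 → EuclideanSpace ℝ (Fin 3), ∃ t : Fin 3 → ℝ, LinearIndependent ℝ v ∧
      (∀ i, 0 < t i) ∧
        K = convexHull ℝ (⋃ i, ({o + v i, o - t i • v i} : Set (EuclideanSpace ℝ (Fin 3)))) := by
  set K' : Set (EuclideanSpace ℝ (Fin 3)) := (fun x => x - o) '' K with hK'
  have hKc : IsCompact K' := hK.image (continuous_id.sub continuous_const)
  have hKv : Convex ℝ K' := by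
    rintro _ ⟨x, hx, rfl⟩ _ ⟨y, hy, rfl⟩ a b ha hb hab
    refine ⟨a • x + b • y, hconv hx hy ha hb hab, ?_⟩
    have h1 : o = a • o + b • o := by rw [← add_smul, hab, one_smul]
    show a • x + b • y - o = a • (x - o) + b • (y - o)
    calc a • x + b • y - o = a • x + b • y - (a • o + b • o) := by rw [← h1]
      _ = a • (x - o) + b • (y - o) := by
        rw [smul_sub, smul_sub]
        abel
  have h0 : (0 : EuclideanSpace ℝ (Fin 3)) ∈ interior K' :=
    (Homeomorph.subRight o).isOpenMap.image_interior_subset K ⟨o, ho, by simp⟩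
  have hdim : Module.finrank ℝ (EuclideanSpace ℝ (Fin 3)) = 3 := by simp
  have hdual : Module.finrank ℝ (EuclideanSpace ℝ (Fin 3) →L[ℝ] ℝ) = 3 := by
    have h1 := (LinearMap.toContinuousLinearMap (𝕜 := ℝ) (E := EuclideanSpace ℝ (Fin 3))
      (F' := ℝ)).symm.finrank_eq
    have h2 := Subspace.dual_finrank_eq (K := ℝ) (V := EuclideanSpace ℝ (Fin 3))
    exact h1.trans (h2.trans hdim)
  rcases illum_or_par H hdual (polarBody_convex K')
    (Metric.isCompact_of_isClosed_isBounded (polarBody_closed K') (polarBody_bounded h0))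
    ⟨0, polarBody_zero_mem_interior hKc⟩ with h | h
  · left
    exact sep_to_hyperplanes hK o (Sep.of_illum_polar hKc h0 h)
  · right
    have h2 := h.image (InnerProductSpace.toDual ℝ (EuclideanSpace ℝ (Fin 3))).symm.toLinearEquiv 0
    have h3 : (fun y => (0 : EuclideanSpace ℝ (Fin 3)) +
        (InnerProductSpace.toDual ℝ (EuclideanSpace ℝ (Fin 3))).symm.toLinearEquiv y) ''
          polarBody K' = pol K' := by
      ext g
      constructor
      · rintro ⟨f, hf, rfl⟩
        intro x hx
        have := hf x hx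
        simpa using this
      · intro hg
        refine ⟨InnerProductSpace.toDual ℝ _ g, ?_, by simp⟩
        intro x hx
        simpa using hg x hx
    rw [h3] at h2
    obtain ⟨v, t, hv, ht, hKe⟩ := cross_of_par hdim hKc hKv h0 h2
    refine ⟨v, t, hv, ht, ?_⟩
    have h4 : K = (fun x => o + x) '' K' := by
      rw [hK', Set.image_image]
      simp
    have h5 : (fun x => o + x) '' (convexHull ℝ (⋃ k, {v k, -(t k • v k)})) =
        convexHull ℝ ((fun x => o + x) '' (⋃ k, {v k, -(t k • v k)})) :=
      (AffineEquiv.constVAdd ℝ (EuclideanSpace ℝ (Fin 3)) o).toAffineMap.image_convexHull _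
    have h6 : (fun x => o + x) '' (⋃ k, {v k, -(t k • v k)}) =
        ⋃ k, {o + v k, o - t k • v k} := by
      rw [Set.image_iUnion]
      refine Set.iUnion_congr fun k => ?_
      rw [Set.image_pair, sub_eq_add_neg]
    rw [h4, hKe, h5, h6]

end Pool.Agent.Lib.MP_5e7226_co.L7
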