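import Pool.Agent.Lib.MP_5e7226_co.L7.N
import Pool.Agent.Lib.MP_5e7226_co.L7.G
import Pool.Agent.Lib.MP_5e7226_co.L7.H
import Pool.Agent.Lib.MP_5e7226_co.L7.H2

/-!
# The main inequality

`star`: let `L` be not illuminated by 7 directions, `x v` dark points for all corners. For every edge
`(v, flip v k)`, `sg v k = -1`, and every `θ` with `|θ| ≤ 1/100`:
`1 ≤ φ (x (flip v k) - x v) k - 2 θ φ (A2 x i j) k`.

Proof. `Bd x` from `dark_strong` and `Sand.out` (`|x v i| ≤ 13/10`, `|sg v i| = 1`). Let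
`e = x (flip v k) - x v`, `α = φ e`, `a = φ (A2 x i j)`; `|a l| ≤ 1/5` (`dual_bound`, `A2_le`). Suppose
`α k - 2 θ a k < 1`. Then `α k < 1.004 ≤ 101/100`, so `edge_coord` applies: `α k ≥ 4/7`,
`|α i| + |α j| ≤ 4/7 + (2/7) α k`. Put `lam = min (101/100) ((1 + 2 θ a k)/α k)`; `1 < lam` since
`α k < 1 + 2 θ a k`. Put `κ = lam α k - 2 θ a k ≤ 1`, `ti = lam α i - 2 θ a i`, `tj = lam α j - 2 θ a j`.
`|ti| + |tj| ≤ (101/100)(4/7 + (2/7) α k) + 4 (1/100)(1/5)`, `κ ≥ α k - 1/250`, so
`|ti| + |tj| + |θ| ≤ (1 + κ)/2 ≤ 1`. By `Dual.expand` for `e` and for `A2 x i j`: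
`Q := κ eb k + ti eb i + tj eb j + 2 θ A2 i j = lam e`. With `M` as in `hull_pts` put
`p = M - (1/2) Q`, `p' = M + (1/2) Q`, both in `L` (`L` is convex and contains all `x v`:
`convexHull_min`), `p' - p = lam (x (flip v k) - x v)`, and
`(1/2)(p + p' - x v - x (flip v k)) = M - (1/2)(x v + x (flip v k))` is the vector `w` of `range1`.
`no_merge` gives the contradiction.
-/

set_option autoImplicit false

open Set Filter Topology

namespace Pool.Agent.Lib.MP_5e7226_co.L7

open GB

theorem bd_of_dark {L : Set E} (hS : Sand L) {x : Fin 8 → E} (hd : ∀ v, Dark L v (x v)) :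
    Bd x := by
  intro v i
  refine ⟨(dark_strong hS (hd v)).2 i, ?_⟩
  refine (le_abs_self _).trans ?_
  rw [abs_mul, show |sg v i| = 1 from abs_sb _, one_mul]
  exact hS.out _ (hd v).mem i

theorem star {L : Set E} (hS : Sand L) (hn : ¬ Illum L 7) {x : Fin 8 → E}
    (hd : ∀ v, Dark L v (x v)) {φ : E →ₗ[ℝ] E} (hφ : Dual x φ) {v : Fin 8} {i j k : Fin 3}
    (hij : i ≠ j) (hik : i ≠ k) (hjk : j ≠ k) (hv : sg v k = -1) {θ : ℝ} (hθ : |θ| ≤ 1/100) :
    1 ≤ φ (x (flip v k) - x v) k - 2 * θ * φ (A2 x i j) k := by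
  have hb := bd_of_dark hS hd
  by_contra hlt
  rw [not_le] at hlt
  set e : E := x (flip v k) - x v with he
  set α : E := φ e with hα
  set a : E := φ (A2 x i j) with ha
  have ha5 : ∀ l, |a l| ≤ 1/5 := fun l => dual_bound hb hφ (fun l => A2_le hb hij l) l
  have hθa : ∀ l, |2 * θ * a l| ≤ 1/250 := by
    intro l
    rw [abs_mul, abs_mul, abs_two]
    calc 2 * |θ| * |a l| ≤ 2 * (1/100) * (1/5) := by
          refine mul_le_mul ?_ (ha5 l) (abs_nonneg _) (by norm_num)
          linarith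
      _ = 1/250 := by norm_num
  have hk1 := abs_le.1 (hθa k)
  have hαk : α k ≤ 101/100 := by linarith [hk1.2]
  obtain ⟨h47, hT⟩ := edge_coord hb hφ hij hik hjk hv hαk
  have h47' : 4/7 ≤ α k := h47
  have hT' : |α i| + |α j| ≤ 4/7 + 2/7 * α k := hT
  have hαpos : 0 < α k := by linarith
  set lam : ℝ := min (101/100) ((1 + 2 * θ * a k) / α k) with hlam
  have hl1 : 1 < lam := by
    rw [hlam, lt_min_iff]
    refine ⟨by norm_num, ?_⟩
    rw [lt_div_iff₀ hαpos]
    linarith
  have hl2 : lam ≤ 101/100 := min_le_left _ _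
  have hl3 : lam * α k ≤ 1 + 2 * θ * a k := by
    have := min_le_right (101/100 : ℝ) ((1 + 2 * θ * a k) / α k)
    calc lam * α k ≤ ((1 + 2 * θ * a k) / α k) * α k :=
          mul_le_mul_of_nonneg_right this hαpos.le
      _ = 1 + 2 * θ * a k := div_mul_cancel₀ _ hαpos.ne'
  set κ : ℝ := lam * α k - 2 * θ * a k with hκdef
  set ti : ℝ := lam * α i - 2 * θ * a i with hti
  set tj : ℝ := lam * α j - 2 * θ * a j with htj
  have hκ1 : κ ≤ 1 := by rw [hκdef]; linarith
  have hκ2 : α k - 1/250 ≤ κ := by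
    have : α k ≤ lam * α k := by nlinarith
    rw [hκdef]; linarith [hk1.2]
  have habs : ∀ l, |lam * α l - 2 * θ * a l| ≤ 101/100 * |α l| + 1/250 := by
    intro l
    refine (abs_sub _ _).trans (add_le_add ?_ (hθa l))
    rw [abs_mul, abs_of_pos (by linarith : 0 < lam)]
    exact mul_le_mul_of_nonneg_right hl2 (abs_nonneg _)
  have hsum : |ti| + |tj| + |θ| ≤ (1 + κ)/2 := by
    have h1 := habs i
    have h2 := habs j
    have h3 : |ti| + |tj| ≤ 101/100 * (|α i| + |α j|) + 1/125 := by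
      rw [hti, htj]; linarith
    linarith
  have hsum1 : |ti| + |tj| + |θ| ≤ 1 := by linarith
  have hhull := hull_pts x hij hik hjk hκ1 hsum
  set M : E := ctr x + ti • A2 x k i + tj • A2 x k j + θ • A3 x k i j with hM
  set R : E := κ • eb x k + ti • eb x i + tj • eb x j + (2 * θ) • A2 x i j with hR
  have hL : convexHull ℝ (range x) ⊆ L :=
    convexHull_min (by rintro _ ⟨u, rfl⟩; exact (hd u).mem) hS.conv
  have hp := hL hhull.1
  have hp' := hL hhull.2
  have hRe : R = lam • e := by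
    have e1 : e = α i • eb x i + α j • eb x j + α k • eb x k := by
      have := hφ.expand e
      rwa [sum3 hij hik hjk] at this
    have e2 : A2 x i j = a i • eb x i + a j • eb x j + a k • eb x k := by
      have := hφ.expand (A2 x i j)
      rwa [sum3 hij hik hjk] at this
    funext l
    have e1' := congrFun e1 l
    have e2' := congrFun e2 l
    simp only [Pi.add_apply, Pi.smul_apply, smul_eq_mul] at e1' e2'
    rw [hR]
    simp only [Pi.add_apply, Pi.smul_apply, smul_eq_mul]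
    rw [hκdef, hti, htj]
    linear_combination (2 * θ) * e2' - lam * e1'
  have hdiff : (M + (1/2 : ℝ) • R) - (M - (1/2 : ℝ) • R) = lam • (x (flip v k) - x v) := by
    rw [← he, ← hRe]
    module
  obtain ⟨w1, w2⟩ := range1 hb v hij hik hjk hsum1
    (w := M - (1/2 : ℝ) • (x v + x (flip v k))) rfl
  have hcoord : ∀ l, (1/2 : ℝ) * ((M - (1/2 : ℝ) • R) l + (M + (1/2 : ℝ) • R) l - x v l
      - x (flip v k) l) = (M - (1/2 : ℝ) • (x v + x (flip v k))) l := by
    intro l
    simp only [Pi.add_apply, Pi.sub_apply, Pi.smul_apply, smul_eq_mul]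
    ring
  refine no_merge hS hn v k (hd v) (hd (flip v k)) hp hp' hl1 hdiff ?_ ?_
  · rw [hcoord k]
    linarith
  · intro l hl
    rw [hcoord l]
    have := w2 l hl
    constructor <;> linarith [this.1, this.2]

end Pool.Agent.Lib.MP_5e7226_co.L7
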