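import Pool.Agent.Lib.MP_5e7226_co.L7.C

/-!
# Seven directions if some corner has no dark point

`illum_of`: from a finset of at most 7 directions to `Illum L 7` (use `Finset.equivFin` and pad with
an arbitrary direction; `Serve L x w` is `∃ t, 0 < t ∧ x + t • w ∈ interior L`).

`illum_of_no_dark`: directions: for the three neighbours `flip v j`: `dv v j`; for the four remaining
corners `u` (not `v`, not a neighbour): `- sg u`. Let `x ∈ L` lie in the octant `u`
(`exists_oct`). If `u = v`: `x` is not dark, so some `dv v j` serves it. If `u = flip v j`: the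
direction `dv v j` is `fun i => -(sg u i * c i)` with `c j = 61/200` and `c i = 1` otherwise
(`sg_flip_self`, `sg_flip_ne`), `serve_oct`. Otherwise `serve_oct` with `c = 1`.
-/

set_option autoImplicit false

open Set Filter Topology

namespace Pool.Agent.Lib.MP_5e7226_co.L7

open GB

theorem illum_of {L : Set E} (D : Finset E) (hD : D.card ≤ 7)
    (h : ∀ x ∈ L, ∃ d ∈ D, Serve L x d) : Illum L 7 := by
  refine ⟨fun i => if hi : (i : ℕ) < D.card then ((D.equivFin.symm ⟨i, hi⟩ : D) : E) else 0, ?_⟩
  intro x hx
  obtain ⟨d, hd, t, ht, hs⟩ := h x hx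
  refine ⟨⟨(D.equivFin ⟨d, hd⟩ : ℕ), lt_of_lt_of_le (D.equivFin ⟨d, hd⟩).2 hD⟩, t, ht, ?_⟩
  have h1 : ((D.equivFin ⟨d, hd⟩ : ℕ)) < D.card := (D.equivFin ⟨d, hd⟩).2
  have h2 : (⟨(D.equivFin ⟨d, hd⟩ : ℕ), h1⟩ : Fin D.card) = D.equivFin ⟨d, hd⟩ := rfl
  simp only [h1, dite_true, h2, Equiv.symm_apply_apply]
  exact hs

private theorem W_card : ∀ v : Fin 8,
    ((Finset.univ : Finset (Fin 8)).filter fun u => u ≠ v ∧ ∀ j : Fin 3, u ≠ flip v j).card = 4 := by
  decide

theorem illum_of_no_dark {L : Set E} (hS : Sand L) (v : Fin 8) (h : ∀ x, ¬ Dark L v x) :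
    Illum L 7 := by
  classical
  set A : Finset (Fin 8) := (Finset.univ : Finset (Fin 8)).filter
    fun u => u ≠ v ∧ ∀ j : Fin 3, u ≠ flip v j with hA
  have hcard : A.card = 4 := W_card v
  refine illum_of ((Finset.univ.image fun j : Fin 3 => dv v j) ∪ A.image fun u => -sg u) ?_ ?_
  · refine (Finset.card_union_le _ _).trans ?_
    have h1 : (Finset.univ.image fun j : Fin 3 => dv v j).card ≤ 3 := by
      refine Finset.card_image_le.trans ?_
      simp
    have h2 : (A.image fun u => -sg u).card ≤ 4 := Finset.card_image_le.trans hcard.le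
    omega
  · intro x hx
    obtain ⟨u, hu⟩ := exists_oct x
    by_cases huv : u = v
    · subst huv
      have h1 : ∃ j, Serve L x (dv u j) := by
        by_contra hcon
        push Not at hcon
        exact h x ⟨hx, hu, hcon⟩
      obtain ⟨j, hj⟩ := h1
      exact ⟨dv u j, Finset.mem_union_left _ (Finset.mem_image_of_mem _ (Finset.mem_univ j)), hj⟩
    by_cases hn : ∃ j : Fin 3, u = flip v j
    · obtain ⟨j, rfl⟩ := hn
      refine ⟨dv v j, Finset.mem_union_left _ (Finset.mem_image_of_mem _ (Finset.mem_univ j)), ?_⟩
      have h1 := serve_oct hS hx (flip v j) hu (fun i => if i = j then 61 / 200 else 1) (by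
        intro i
        by_cases hij : i = j
        · simp only [hij, if_true]
          norm_num
        · simp only [hij, if_false]
          norm_num)
      have h2 : (fun i => -(sg (flip v j) i * (fun i => if i = j then (61 / 200 : ℝ) else 1) i)) =
          dv v j := by
        funext i
        by_cases hij : i = j
        · subst hij
          simp only [dv, if_true, sg_flip_self]
          ring
        · simp only [dv, hij, if_false, sg_flip_ne v hij]
          ring
      rw [h2] at h1
      exact h1
    · push Not at hn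
      refine ⟨-sg u, Finset.mem_union_right _ (Finset.mem_image_of_mem _ ?_), ?_⟩
      · rw [hA, Finset.mem_filter]
        exact ⟨Finset.mem_univ _, huv, hn⟩
      · have h1 := serve_oct hS hx u hu (fun _ => 1) (by
          intro i
          norm_num)
        have h2 : (fun i => -(sg u i * (fun _ => (1 : ℝ)) i)) = -sg u := by
          funext i
          simp
        rw [h2] at h1
        exact h1

end Pool.Agent.Lib.MP_5e7226_co.L7
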